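import Mathlib

/-!
Circuits with few arbitrary gates whose input is a finite set, and the monotone functions obtained
by fixing the values of these gates.
-/

namespace Pool.Agent.H25.NS

/-- A circuit with `s` gates whose input is a finite set of elements of `Y`, in topological order:
gate `i` computes the property `fn i` of the input set. Each gate tests whether a fixed element
belongs to the input set, is the AND or the OR of any set of earlier gates, or is one of at most
`r` special gates, which compute arbitrary functions of at most `t` earlier gates. -/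
structure Circuit (Y : Type) (s r t : ℕ) where
  /-- the property computed by a gate -/
  fn : Fin s → Finset Y → Prop
  /-- the special gates -/
  special : Finset (Fin s)
  card_special : special.card ≤ r
  gate : ∀ i,
    (∃ c, ∀ F, fn i F ↔ c ∈ F) ∨
    (∃ S : Finset (Fin s), (∀ j ∈ S, j < i) ∧ ∀ F, fn i F ↔ ∀ j ∈ S, fn j F) ∨
    (∃ S : Finset (Fin s), (∀ j ∈ S, j < i) ∧ ∀ F, fn i F ↔ ∃ j ∈ S, fn j F) ∨
    (i ∈ special ∧ ∃ S : Finset (Fin s), S.card ≤ t ∧ (∀ j ∈ S, j < i) ∧
      ∀ F F', (∀ j ∈ S, fn j F ↔ fn j F') → (fn i F ↔ fn i F'))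

variable {Y : Type}

/-- Gate number `i` of a sequence is an element test, the conjunction or the disjunction of a set
of earlier members. -/
def MGate (f : ℕ → Finset Y → Prop) (i : ℕ) : Prop :=
  (∃ c, ∀ F, f i F ↔ c ∈ F) ∨
  (∃ S : Finset ℕ, (∀ j ∈ S, j < i) ∧ ∀ F, f i F ↔ ∀ j ∈ S, f j F) ∨
  (∃ S : Finset ℕ, (∀ j ∈ S, j < i) ∧ ∀ F, f i F ↔ ∃ j ∈ S, f j F)

theorem MGate.of_true {f : ℕ → Finset Y → Prop} {i : ℕ} (h : ∀ x, f i x) : MGate f i := by
  refine Or.inr (Or.inl ⟨∅, ?_, fun x => ?_⟩)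
  · intro j hj
    exact absurd hj (Finset.notMem_empty j)
  · exact ⟨fun _ j hj => absurd hj (Finset.notMem_empty j), fun _ => h x⟩

theorem MGate.of_false {f : ℕ → Finset Y → Prop} {i : ℕ} (h : ∀ x, ¬ f i x) : MGate f i := by
  refine Or.inr (Or.inr ⟨∅, ?_, fun x => ?_⟩)
  · intro j hj
    exact absurd hj (Finset.notMem_empty j)
  · constructor
    · intro hx
      exact absurd hx (h x)
    · rintro ⟨j, hj, _⟩
      exact absurd hj (Finset.notMem_empty j)

/-- `F` is computed by a monotone straight-line program with `s` gates. -/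
def MonoSize (s : ℕ) (F : Finset Y → Prop) : Prop :=
  ∃ f : ℕ → Finset Y → Prop, (∀ i < s, MGate f i) ∧ ∃ i < s, ∀ x, F x ↔ f i x

/-- Gate `i` is monotone. -/
def Plain {s : ℕ} (fn : Fin s → Finset Y → Prop) (i : Fin s) : Prop :=
  (∃ c, ∀ F, fn i F ↔ c ∈ F) ∨
    (∃ S : Finset (Fin s), (∀ j ∈ S, j < i) ∧ ∀ F, fn i F ↔ ∀ j ∈ S, fn j F) ∨
    (∃ S : Finset (Fin s), (∀ j ∈ S, j < i) ∧ ∀ F, fn i F ↔ ∃ j ∈ S, fn j F)

/-- For every assignment `β` of the gates in `X` there is a monotone program which computes the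
gates of the circuit as long as the gates in `X` have the values `β`. -/
theorem exists_program {s : ℕ} (fn : Fin s → Finset Y → Prop)
    (X : Finset (Fin s)) (hX : ∀ i, i ∉ X → Plain fn i) (β : Fin s → Prop) :
    ∃ f : ℕ → Finset Y → Prop, (∀ i < s, MGate f i) ∧
      (∀ i : Fin s, ∀ x, (∀ l ∈ X, l ≤ i → (fn l x ↔ β l)) → (f i x ↔ fn i x)) := by
  classical
  suffices H : ∀ t ≤ s, ∃ f : ℕ → Finset Y → Prop, (∀ i < t, MGate f i) ∧
      (∀ i : Fin s, i.1 < t → ∀ x, (∀ l ∈ X, l ≤ i → (fn l x ↔ β l)) →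
        (f i x ↔ fn i x)) by
    obtain ⟨f, h1, h2⟩ := H s le_rfl
    exact ⟨f, h1, fun i x => h2 i i.2 x⟩
  intro t
  induction t with
  | zero =>
    intro _
    refine ⟨fun _ _ => True, ?_, ?_⟩
    · intro i hi
      omega
    · intro i hi
      omega
  | succ t ih =>
    intro ht
    obtain ⟨f, h1, h2⟩ := ih (by omega)
    have ht' : t < s := by omega
    obtain ⟨F, hF1, hF2⟩ : ∃ F : Finset Y → Prop,
        ((∃ c, ∀ x, F x ↔ c ∈ x) ∨
          (∃ S : Finset ℕ, (∀ j ∈ S, j < t) ∧ ∀ x, F x ↔ ∀ j ∈ S, f j x) ∨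
          (∃ S : Finset ℕ, (∀ j ∈ S, j < t) ∧ ∀ x, F x ↔ ∃ j ∈ S, f j x)) ∧
        (∀ i : Fin s, i.1 = t → ∀ x, (∀ l ∈ X, l ≤ i → (fn l x ↔ β l)) → (F x ↔ fn i x)) := by
      have hfalse : ∀ F : Finset Y → Prop, (∀ x, ¬ F x) →
          ((∃ c, ∀ x, F x ↔ c ∈ x) ∨
          (∃ S : Finset ℕ, (∀ j ∈ S, j < t) ∧ ∀ x, F x ↔ ∀ j ∈ S, f j x) ∨
          (∃ S : Finset ℕ, (∀ j ∈ S, j < t) ∧ ∀ x, F x ↔ ∃ j ∈ S, f j x)) := by
        intro F hF
        refine Or.inr (Or.inr ⟨∅, ?_, fun x => ?_⟩)
        · intro j hj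
          exact absurd hj (Finset.notMem_empty j)
        · constructor
          · intro hx
            exact absurd hx (hF x)
          · rintro ⟨j, hj, _⟩
            exact absurd hj (Finset.notMem_empty j)
      have htrue : ∀ F : Finset Y → Prop, (∀ x, F x) →
          ((∃ c, ∀ x, F x ↔ c ∈ x) ∨
          (∃ S : Finset ℕ, (∀ j ∈ S, j < t) ∧ ∀ x, F x ↔ ∀ j ∈ S, f j x) ∨
          (∃ S : Finset ℕ, (∀ j ∈ S, j < t) ∧ ∀ x, F x ↔ ∃ j ∈ S, f j x)) := by
        intro F hF
        refine Or.inr (Or.inl ⟨∅, ?_, fun x => ?_⟩)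
        · intro j hj
          exact absurd hj (Finset.notMem_empty j)
        · exact ⟨fun _ j hj => absurd hj (Finset.notMem_empty j), fun _ => hF x⟩
      by_cases hs : (⟨t, ht'⟩ : Fin s) ∈ X
      · refine ⟨fun _ => β ⟨t, ht'⟩, ?_, ?_⟩
        · by_cases hb : β ⟨t, ht'⟩
          · exact htrue _ fun _ => hb
          · exact hfalse _ fun _ => hb
        · intro i hi x hx
          obtain rfl : i = ⟨t, ht'⟩ := Fin.ext hi
          exact (hx _ hs le_rfl).symm
      · have key : ∀ F : Finset Y → Prop,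
            ((∃ c, ∀ x, F x ↔ c ∈ x) ∨
              (∃ S : Finset ℕ, (∀ j ∈ S, j < t) ∧ ∀ x, F x ↔ ∀ j ∈ S, f j x) ∨
              (∃ S : Finset ℕ, (∀ j ∈ S, j < t) ∧ ∀ x, F x ↔ ∃ j ∈ S, f j x)) →
            (∀ x, (∀ l ∈ X, l ≤ (⟨t, ht'⟩ : Fin s) → (fn l x ↔ β l)) →
              (F x ↔ fn ⟨t, ht'⟩ x)) →
            ∃ F : Finset Y → Prop,
              ((∃ c, ∀ x, F x ↔ c ∈ x) ∨
                (∃ S : Finset ℕ, (∀ j ∈ S, j < t) ∧ ∀ x, F x ↔ ∀ j ∈ S, f j x) ∨
                (∃ S : Finset ℕ, (∀ j ∈ S, j < t) ∧ ∀ x, F x ↔ ∃ j ∈ S, f j x)) ∧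
              (∀ i : Fin s, i.1 = t → ∀ x, (∀ l ∈ X, l ≤ i → (fn l x ↔ β l)) →
                (F x ↔ fn i x)) := by
          intro F hF hF'
          refine ⟨F, hF, ?_⟩
          intro i hi x hx
          obtain rfl : i = ⟨t, ht'⟩ := Fin.ext hi
          exact hF' x hx
        rcases hX ⟨t, ht'⟩ hs with ⟨c, h⟩ | ⟨S, hS, h⟩ | ⟨S, hS, h⟩
        · exact key (fun x => c ∈ x) (Or.inl ⟨c, fun _ => Iff.rfl⟩)
            (fun x _ => (h x).symm)
        · refine key (fun x => ∀ j ∈ S, f j x) (Or.inr (Or.inl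
            ⟨S.image Fin.val, ?_, fun x => ?_⟩)) (fun x hx => ?_)
          · intro j hj
            obtain ⟨j', hj', rfl⟩ := Finset.mem_image.1 hj
            exact hS j' hj'
          · constructor
            · intro h' j hj
              obtain ⟨j', hj', rfl⟩ := Finset.mem_image.1 hj
              exact h' j' hj'
            · intro h' j hj
              exact h' j.1 (Finset.mem_image_of_mem _ hj)
          · show (∀ j ∈ S, f j x) ↔ _
            rw [h]
            constructor
            · intro h' j hj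
              exact (h2 j (hS j hj) x fun l hl hlj =>
                hx l hl (hlj.trans (hS j hj).le)).1 (h' j hj)
            · intro h' j hj
              exact (h2 j (hS j hj) x fun l hl hlj =>
                hx l hl (hlj.trans (hS j hj).le)).2 (h' j hj)
        · refine key (fun x => ∃ j ∈ S, f j x) (Or.inr (Or.inr
            ⟨S.image Fin.val, ?_, fun x => ?_⟩)) (fun x hx => ?_)
          · intro j hj
            obtain ⟨j', hj', rfl⟩ := Finset.mem_image.1 hj
            exact hS j' hj'
          · constructor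
            · rintro ⟨j, hj, hx⟩
              exact ⟨j.1, Finset.mem_image_of_mem _ hj, hx⟩
            · rintro ⟨j, hj, hx⟩
              obtain ⟨j', hj', rfl⟩ := Finset.mem_image.1 hj
              exact ⟨j', hj', hx⟩
          · show (∃ j ∈ S, f j x) ↔ _
            rw [h]
            constructor
            · rintro ⟨j, hj, hx'⟩
              exact ⟨j, hj, (h2 j (hS j hj) x fun l hl hlj =>
                hx l hl (hlj.trans (hS j hj).le)).1 hx'⟩
            · rintro ⟨j, hj, hx'⟩
              exact ⟨j, hj, (h2 j (hS j hj) x fun l hl hlj =>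
                hx l hl (hlj.trans (hS j hj).le)).2 hx'⟩
    have hne : ∀ j, j < t → Function.update f t F j = f j := fun j hj =>
      Function.update_of_ne (by omega) _ _
    have heq : Function.update f t F t = F := Function.update_self _ _ _
    have hall : ∀ (i : ℕ) (S : Finset ℕ), i ≤ t → (∀ j ∈ S, j < i) → ∀ x,
        (∀ j ∈ S, f j x) ↔ ∀ j ∈ S, Function.update f t F j x := by
      intro i S hi hS x
      constructor
      · intro h j hj
        rw [hne j ((hS j hj).trans_le hi)]
        exact h j hj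
      · intro h j hj
        have := h j hj
        rwa [hne j ((hS j hj).trans_le hi)] at this
    have hex : ∀ (i : ℕ) (S : Finset ℕ), i ≤ t → (∀ j ∈ S, j < i) → ∀ x,
        (∃ j ∈ S, f j x) ↔ ∃ j ∈ S, Function.update f t F j x := by
      intro i S hi hS x
      constructor
      · rintro ⟨j, hj, h⟩
        refine ⟨j, hj, ?_⟩
        rw [hne j ((hS j hj).trans_le hi)]
        exact h
      · rintro ⟨j, hj, h⟩
        refine ⟨j, hj, ?_⟩
        rwa [hne j ((hS j hj).trans_le hi)] at h
    refine ⟨Function.update f t F, ?_, ?_⟩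
    · intro i hi
      rcases Nat.lt_succ_iff_lt_or_eq.1 hi with hi | rfl
      · rcases h1 i hi with ⟨c, h⟩ | ⟨S, hS, h⟩ | ⟨S, hS, h⟩
        · exact Or.inl ⟨c, by rw [hne i hi]; exact h⟩
        · refine Or.inr (Or.inl ⟨S, hS, fun x => ?_⟩)
          rw [hne i hi, h]
          exact hall i S hi.le hS x
        · refine Or.inr (Or.inr ⟨S, hS, fun x => ?_⟩)
          rw [hne i hi, h]
          exact hex i S hi.le hS x
      · rcases hF1 with ⟨c, h⟩ | ⟨S, hS, h⟩ | ⟨S, hS, h⟩
        · exact Or.inl ⟨c, by rw [heq]; exact h⟩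
        · refine Or.inr (Or.inl ⟨S, hS, fun x => ?_⟩)
          rw [heq, h]
          exact hall i S le_rfl hS x
        · refine Or.inr (Or.inr ⟨S, hS, fun x => ?_⟩)
          rw [heq, h]
          exact hex i S le_rfl hS x
    · intro i hi x hx
      rcases Nat.lt_succ_iff_lt_or_eq.1 hi with hi | hi
      · rw [hne i hi]
        exact h2 i hi x hx
      · rw [hi, heq]
        exact hF2 i hi x hx

/-- The output of a circuit with few special gates is a function of few monotone functions of
small size. -/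
theorem Circuit.exists_monotone_family {s r t : ℕ} (C : Circuit Y s r t) (out : Fin s) :
    ∃ (T : Finset (Finset (Fin s) × Fin s)) (M : Finset (Fin s) × Fin s →
        Finset Y → Prop), T.card ≤ 2 ^ r * (r * t + 1) ∧
      (∀ t ∈ T, MonoSize s (M t)) ∧
      ∀ x y, (∀ t ∈ T, M t x ↔ M t y) → (C.fn out x ↔ C.fn out y) := by
  classical
  -- special gates that are of special type
  let P : Fin s → Finset (Fin s) → Prop := fun i S => S.card ≤ t ∧ (∀ j ∈ S, j < i) ∧
        ∀ G H, (∀ j ∈ S, C.fn j G ↔ C.fn j H) → (C.fn i G ↔ C.fn i H)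
  let X : Finset (Fin s) := C.special.filter fun i => ∃ S, P i S
  have hXc : X.card ≤ r := (Finset.card_filter_le _ _).trans C.card_special
  have hX : ∀ i, i ∉ X → Plain C.fn i := by
    intro i hi
    rcases C.gate i with h | h | h | ⟨h, h'⟩
    · exact Or.inl h
    · exact Or.inr (Or.inl h)
    · exact Or.inr (Or.inr h)
    · exact absurd (Finset.mem_filter.2 ⟨h, h'⟩) hi
  choose f hf1 hf2 using fun β : Finset (Fin s) => exists_program C.fn X hX (fun i => i ∈ β)
  let In : Fin s → Finset (Fin s) := fun i => if h : ∃ S, P i S then h.choose else ∅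
  have hIn : ∀ i, (∃ S, P i S) → P i (In i) := by
    intro i h
    show P i (if h : ∃ S, P i S then h.choose else ∅)
    rw [dif_pos h]
    exact h.choose_spec
  have hInc : ∀ i, (In i).card ≤ t := by
    intro i
    by_cases h : ∃ S, P i S
    · exact (hIn i h).1
    · show (if h : ∃ S, P i S then h.choose else ∅).card ≤ t
      rw [dif_neg h]
      simp
  let I : Finset (Fin s) := insert out (X.biUnion In)
  have hI : I.card ≤ r * t + 1 := by
    refine (Finset.card_insert_le _ _).trans ?_
    have h1 : (X.biUnion In).card ≤ X.card * t :=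
      Finset.card_biUnion_le_card_mul _ _ _ fun i _ => hInc i
    have h2 : X.card * t ≤ r * t := Nat.mul_le_mul_right _ hXc
    omega
  refine ⟨X.powerset ×ˢ I, fun t x => f t.1 t.2 x, ?_, ?_, ?_⟩
  · rw [Finset.card_product, Finset.card_powerset]
    exact Nat.mul_le_mul (Nat.pow_le_pow_right (by norm_num) hXc) hI
  · rintro ⟨β, i⟩ _
    exact ⟨f β, hf1 β, i, i.2, fun x => Iff.rfl⟩
  · intro x y hxy
    -- the values of the special gates at x
    let β : Finset (Fin s) := X.filter fun i => C.fn i x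
    have hβ : β ∈ X.powerset := Finset.mem_powerset.2 (Finset.filter_subset _ _)
    have hβx : ∀ l ∈ X, (C.fn l x ↔ l ∈ β) := by
      intro l hl
      simp [β, hl]
    have hx : ∀ i : Fin s, f β i x ↔ C.fn i x := fun i => hf2 β i x fun l hl _ => hβx l hl
    have hy : ∀ m : ℕ, ∀ l ∈ X, l.1 < m → (C.fn l y ↔ l ∈ β) := by
      intro m
      induction m with
      | zero =>
        intro l _ hl
        omega
      | succ m ih =>
        intro l hl hlm
        have hP := hIn l (Finset.mem_filter.1 hl).2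
        rw [← hβx l hl]
        refine (hP.2.2 y x ?_)
        intro j hj
        have hjl : j < l := hP.2.1 j hj
        have hjl' : j.1 < l.1 := hjl
        have h1 : f β j y ↔ C.fn j y := by
          refine hf2 β j y fun l' hl' hl'j => ih l' hl' ?_
          have : l'.1 ≤ j.1 := hl'j
          omega
        rw [← h1, ← hx j]
        exact (hxy (β, j) (Finset.mem_product.2 ⟨hβ, Finset.mem_insert_of_mem
          (Finset.mem_biUnion.2 ⟨l, hl, hj⟩)⟩)).symm
    have h1 : f β out y ↔ C.fn out y := hf2 β out y fun l hl _ => hy s l hl l.2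
    rw [← h1, ← hx out]
    exact hxy (β, out) (Finset.mem_product.2 ⟨hβ, Finset.mem_insert_self _ _⟩)

end Pool.Agent.H25.NS
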