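import Pool.Agent.H25.NS.Prog
import Pool.Agent.H25.NM.Nc

/-!
The approximation of a monotone function on one block: if it accepts the planted inputs, then it
accepts the random inputs at least as often.
-/

namespace Pool.Agent.H25.NS

set_option linter.unusedSectionVars false

open Finset
open H13 (Atom Good St AppData cnt acc)
open Pool.Agent.H25.NM (nc nc_prod_and nc_le_card)

theorem cnt_eq_nc {α : Type} [Fintype α] (p : α → Prop) : cnt p = (nc p : ℝ) := by
  rw [H13.cnt_eq_card p (Classical.decPred p)]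
  rfl

variable {X Ω A : Type} [Fintype X] [DecidableEq X] [Fintype Ω] [Fintype A]

theorem geo_le (c : ℕ) : ∑ l ∈ Finset.Icc 1 c, (1 / 4 : ℝ) ^ l ≤ 1 := by
  have h := H13.geo4 1 c
  have : (4 : ℝ) / 3 * (1 / 4) ^ 1 ≤ 1 := by norm_num
  exact h.trans this

/-- **Block lemma.** -/
theorem block_bound {N : Ω → Finset X} {Y : A → Finset X} {c' : ℕ} {R δ : ℝ}
    (hD : AppData N Y c' R δ)
    (hpos : ∀ S : Finset X, S.card ≤ 2 * c' →
      cnt (fun α => S ⊆ Y α) * (16 * R) ^ S.card ≤ Fintype.card A)
    (hneg : ∀ S : Finset X, (Fintype.card Ω : ℝ) ≤ 4 ^ S.card * cnt (fun w => S ⊆ N w))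
    {s : ℕ} {h : Finset X → Prop} (hs : ASize s h) :
    (nc (fun x : A × Ω => h (Y x.1) ∧ ¬ h (N x.2)) : ℝ) ≤
      Fintype.card A * nc (fun w => h (N w)) +
        (2 * (s * s + 1) * (1 / 4) ^ c') * (Fintype.card A * Fintype.card Ω) := by
  classical
  obtain ⟨f, hf, i, hi, hF⟩ := hs
  obtain ⟨BP, BN, hst, hg⟩ := good_prog hD hf s le_rfl
  obtain ⟨F, hFc, hFP, hFN⟩ := hg i hi
  obtain ⟨EP, EN, F', hEP, hEN, hF', hcount, hPP, hNN⟩ := H13.trim_step hD F
    (fun S hS => by have := hFc S hS; omega)
  have hst1 := hst.add hEP hEN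
  obtain ⟨b1, b2⟩ := hst1
  have hR := hD.hR
  have hA0 : (0 : ℝ) ≤ Fintype.card A := by positivity
  have hΩ0 : (0 : ℝ) ≤ Fintype.card Ω := by positivity
  set a : ℝ := (Fintype.card A : ℝ) with ha
  set o : ℝ := (Fintype.card Ω : ℝ) with ho
  set e : ℝ := (s * s + 1) * (1 / 4) ^ c' with he
  have he0 : 0 ≤ e := by
    rw [he]
    positivity
  have b1' : cnt (fun α => BP α ∨ EP α) ≤ e * a := by
    refine b1.trans (le_of_eq ?_)
    rw [he]
    push_cast
    ring
  have b2' : cnt (fun w => BN w ∨ EN w) ≤ e * o := by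
    refine b2.trans (le_of_eq ?_)
    rw [he]
    push_cast
    ring
  rw [nc_prod_and (fun α => h (Y α)) fun w => ¬ h (N w)]
  push_cast
  have hnY : (nc (fun α => h (Y α)) : ℝ) ≤ a := by
    rw [ha]
    exact_mod_cast nc_le_card _
  have hnN : (nc (fun w => ¬ h (N w)) : ℝ) ≤ o := by
    rw [ho]
    exact_mod_cast nc_le_card _
  have hrhs : 2 * ((s : ℝ) * s + 1) * (1 / 4) ^ c' * (a * o) = 2 * e * (a * o) := by
    rw [he]
    ring
  rw [hrhs]
  have hprod0 : 0 ≤ e * (a * o) := by positivity
  have hnh0 : (0 : ℝ) ≤ a * nc (fun w => h (N w)) := by positivity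
  by_cases hemp : ∅ ∈ F'
  · have h1 : (nc (fun w => ¬ h (N w)) : ℝ) ≤ e * o := by
      rw [← cnt_eq_nc]
      refine le_trans (H13.cnt_mono ?_) b2'
      intro w hw
      by_contra hno
      rw [not_or] at hno
      exact hw ((hF _).2 (hFN w hno.1 (hNN w hno.2 ⟨∅, hemp, Finset.empty_subset _⟩)))
    calc (nc (fun α => h (Y α)) : ℝ) * nc (fun w => ¬ h (N w)) ≤ a * (e * o) :=
          mul_le_mul hnY h1 (by positivity) hA0
      _ ≤ _ := by
          have : a * (e * o) = e * (a * o) := by ring
          rw [this]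
          linarith
  · have h1 : (nc (fun α => h (Y α)) : ℝ) ≤ e * a +
        cnt (fun α => ∃ l ∈ Finset.Icc 1 c', ∃ S ∈ F'.filter (fun S => S.card = l), S ⊆ Y α) := by
      rw [← cnt_eq_nc]
      refine le_trans (H13.cnt_mono ?_) ((H13.cnt_or _ _).trans (add_le_add_left b1' _))
      intro α hα
      by_contra hno
      rw [not_or, not_or] at hno
      obtain ⟨S, hS, hSY⟩ := hPP α hno.1.2 (hFP α hno.1.1 ((hF _).1 hα))
      apply hno.2
      refine ⟨S.card, Finset.mem_Icc.2 ⟨?_, hF' S hS⟩, S, Finset.mem_filter.2 ⟨hS, rfl⟩, hSY⟩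
      rcases Nat.eq_zero_or_pos S.card with h | h
      · rw [Finset.card_eq_zero] at h
        rw [h] at hS
        exact absurd hS hemp
      · exact h
    -- every size
    have h2 : ∀ l ∈ Finset.Icc 1 c',
        (∑ S ∈ F'.filter (fun S => S.card = l), cnt (fun α => S ⊆ Y α)) * o ≤
        (1 / 4 : ℝ) ^ l * (a * (nc (fun w => h (N w)) + e * o)) := by
      intro l hl
      rw [Finset.mem_Icc] at hl
      have hN0 : (0 : ℝ) ≤ nc (fun w => h (N w)) + e * o := by positivity
      rcases (F'.filter (fun S => S.card = l)).eq_empty_or_nonempty with hne | ⟨T, hT⟩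
      · rw [hne, Finset.sum_empty, zero_mul]
        positivity
      · have hTl : T.card = l := (Finset.mem_filter.1 hT).2
        have hTF : T ∈ F' := (Finset.mem_filter.1 hT).1
        have e1 : ∑ S ∈ F'.filter (fun S => S.card = l), cnt (fun α => S ⊆ Y α) ≤
            (1 / 16 : ℝ) ^ l * a := by
          calc ∑ S ∈ F'.filter (fun S => S.card = l), cnt (fun α => S ⊆ Y α)
              ≤ ∑ S ∈ F'.filter (fun S => S.card = l), a / (16 * R) ^ l := by
                apply Finset.sum_le_sum
                intro S hS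
                rw [Finset.mem_filter] at hS
                rw [le_div_iff₀ (by positivity)]
                have := hpos S (by omega)
                rwa [hS.2] at this
            _ = ((F'.filter (fun S => S.card = l)).card : ℝ) * (a / (16 * R) ^ l) := by
                rw [Finset.sum_const, nsmul_eq_mul]
            _ ≤ R ^ l * (a / (16 * R) ^ l) :=
                mul_le_mul_of_nonneg_right (hcount l (by omega)) (by positivity)
            _ = (1 / 16 : ℝ) ^ l * a := by
                rw [mul_pow, div_pow, one_pow]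
                field_simp
        have e2 : o ≤ 4 ^ l * (nc (fun w => h (N w)) + e * o) := by
          have g1 := hneg T
          rw [hTl] at g1
          refine g1.trans (mul_le_mul_of_nonneg_left ?_ (by positivity))
          rw [← cnt_eq_nc]
          refine le_trans (H13.cnt_mono ?_) ((H13.cnt_or (fun w => h (N w))
            (fun w => BN w ∨ EN w)).trans (add_le_add_right b2' _))
          intro w hw
          by_cases hno : BN w ∨ EN w
          · exact Or.inr hno
          · rw [not_or] at hno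
            exact Or.inl ((hF _).2 (hFN w hno.1 (hNN w hno.2 ⟨T, hTF, hw⟩)))
        calc (∑ S ∈ F'.filter (fun S => S.card = l), cnt (fun α => S ⊆ Y α)) * o
            ≤ ((1 / 16 : ℝ) ^ l * a) * (4 ^ l * (nc (fun w => h (N w)) + e * o)) :=
              mul_le_mul e1 e2 hΩ0 (by positivity)
          _ = ((1 / 16 : ℝ) ^ l * 4 ^ l) * (a * (nc (fun w => h (N w)) + e * o)) := by ring
          _ = (1 / 4 : ℝ) ^ l * (a * (nc (fun w => h (N w)) + e * o)) := by
              rw [← mul_pow]
              norm_num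
    have h3 : cnt (fun α => ∃ l ∈ Finset.Icc 1 c', ∃ S ∈ F'.filter (fun S => S.card = l),
        S ⊆ Y α) * o ≤ a * (nc (fun w => h (N w)) + e * o) := by
      calc cnt (fun α => ∃ l ∈ Finset.Icc 1 c', ∃ S ∈ F'.filter (fun S => S.card = l),
            S ⊆ Y α) * o
          ≤ (∑ l ∈ Finset.Icc 1 c', ∑ S ∈ F'.filter (fun S => S.card = l),
              cnt (fun α => S ⊆ Y α)) * o :=
            mul_le_mul_of_nonneg_right ((H13.cnt_exists _ _).trans
              (Finset.sum_le_sum fun l _ => H13.cnt_exists _ _)) hΩ0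
        _ = ∑ l ∈ Finset.Icc 1 c', (∑ S ∈ F'.filter (fun S => S.card = l),
              cnt (fun α => S ⊆ Y α)) * o := by rw [Finset.sum_mul]
        _ ≤ ∑ l ∈ Finset.Icc 1 c', (1 / 4 : ℝ) ^ l * (a * (nc (fun w => h (N w)) + e * o)) :=
            Finset.sum_le_sum h2
        _ = (∑ l ∈ Finset.Icc 1 c', (1 / 4 : ℝ) ^ l) *
              (a * (nc (fun w => h (N w)) + e * o)) := by rw [Finset.sum_mul]
        _ ≤ 1 * (a * (nc (fun w => h (N w)) + e * o)) :=
            mul_le_mul_of_nonneg_right (geo_le c') (by positivity)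
        _ = _ := one_mul _
    calc (nc (fun α => h (Y α)) : ℝ) * nc (fun w => ¬ h (N w))
        ≤ (nc (fun α => h (Y α)) : ℝ) * o := mul_le_mul_of_nonneg_left hnN (by positivity)
      _ ≤ (e * a + cnt (fun α => ∃ l ∈ Finset.Icc 1 c',
            ∃ S ∈ F'.filter (fun S => S.card = l), S ⊆ Y α)) * o :=
          mul_le_mul_of_nonneg_right h1 hΩ0
      _ ≤ e * a * o + a * (nc (fun w => h (N w)) + e * o) := by
          rw [add_mul]
          linarith
      _ = _ := by ring

end Pool.Agent.H25.NS
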