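import Pool.Agent.H13.MonoExist
import Pool.Agent.H25.NS.Chain
import Pool.Agent.H25.NS.Block

/-!
The blocks of the hidden word function over a product alphabet.
-/

namespace Pool.Agent.H25.NS

set_option linter.unusedSectionVars false

open Finset
open H13 (cnt Neg Yp mem_Neg mem_Yp)
open Pool.Agent.H25.NM (nc)

/-- A fixed set is contained in the negative input often. -/
theorem neg_contains_ge {X : Type} [Fintype X] [DecidableEq X] {g ρ q : ℕ}
    (hq : q = 2 * (g * ρ)) (hq0 : 0 < q) (T : Finset X) :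
    (Fintype.card (Fin g → Fin ρ → X → Fin q) : ℝ) ≤
      4 ^ T.card * cnt (fun w : Fin g → Fin ρ → X → Fin q => T ⊆ Neg w) := by
  classical
  set e : (X → (Fin g → Fin ρ → Fin q)) ≃ (Fin g → Fin ρ → X → Fin q) :=
    { toFun := fun f i r x => f x i r
      invFun := fun w x i r => w i r x
      left_inv := fun _ => rfl
      right_inv := fun _ => rfl } with he
  rw [H13.cnt_equiv e]
  set Gd : Finset (Fin g → Fin ρ → Fin q) := univ.filter (fun v => ∃ i r, (v i r).val = 0) with hGd
  set tot : ℝ := (Fintype.card (Fin g → Fin ρ → Fin q) : ℝ) with htot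
  have hq0' : (0 : ℝ) < q := by exact_mod_cast hq0
  have htotval : tot = (q : ℝ) ^ (g * ρ) := by
    rw [htot]
    simp only [Fintype.card_fun, Fintype.card_fin]
    push_cast
    rw [← pow_mul, mul_comm]
  have htot0 : 0 < tot := by rw [htotval]; positivity
  have hGdc : tot ≤ 4 * (Gd.card : ℝ) := by
    have h1 : Gd.card + (univ.filter (fun v : Fin g → Fin ρ → Fin q =>
        ¬ ∃ i r, (v i r).val = 0)).card = Fintype.card (Fin g → Fin ρ → Fin q) := by
      rw [hGd, Finset.card_filter_add_card_filter_not, Finset.card_univ]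
    have h2 : (univ.filter (fun v : Fin g → Fin ρ → Fin q => ¬ ∃ i r, (v i r).val = 0))
        = Fintype.piFinset (fun _ : Fin g => Fintype.piFinset (fun _ : Fin ρ =>
          (univ.filter (fun c : Fin q => ¬ c.val = 0)))) := by
      ext v
      simp only [H13.mem_ufilter, Fintype.mem_piFinset]
      push Not
      rfl
    have h3 : (univ.filter (fun c : Fin q => ¬ c.val = 0)).card = q - 1 := by
      have h4 : (univ.filter (fun c : Fin q => c.val = 0)).card
          + (univ.filter (fun c : Fin q => ¬ c.val = 0)).card = q := by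
        rw [Finset.card_filter_add_card_filter_not]
        simp
      have h5 : (univ.filter (fun c : Fin q => c.val = 0)) = {⟨0, hq0⟩} := by
        ext c
        rw [Finset.mem_filter, Finset.mem_singleton, Fin.ext_iff]
        simp
      rw [h5, Finset.card_singleton] at h4
      omega
    have h6 : (Fintype.piFinset (fun _ : Fin g => Fintype.piFinset (fun _ : Fin ρ =>
          (univ.filter (fun c : Fin q => ¬ c.val = 0))))).card = (q - 1) ^ (g * ρ) := by
      rw [Fintype.card_piFinset]
      simp only [Fintype.card_piFinset, h3, Finset.prod_const, Finset.card_univ, Fintype.card_fin]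
      rw [← pow_mul, mul_comm]
    rw [h2, h6] at h1
    have h7 : (Gd.card : ℝ) + ((q : ℝ) - 1) ^ (g * ρ) = tot := by
      rw [htot]
      rw [← h1]
      push_cast [Nat.cast_sub (show 1 ≤ q from hq0)]
      ring
    have h8 : ((q : ℝ) - 1) ^ (g * ρ) ≤ 3 / 4 * tot := by
      have hq1 : (1 : ℝ) ≤ q := by exact_mod_cast hq0
      have hle : 1 / (q : ℝ) ≤ 1 := by rw [div_le_one hq0']; exact hq1
      have h9 : (1 - 1 / (q : ℝ)) ^ (g * ρ) ≤ Real.exp (-(1 / 2)) := by
        have g1 : 1 - 1 / (q : ℝ) ≤ Real.exp (-(1 / (q : ℝ))) := by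
          have := Real.add_one_le_exp (-(1 / (q : ℝ)))
          linarith
        calc (1 - 1 / (q : ℝ)) ^ (g * ρ) ≤ (Real.exp (-(1 / (q : ℝ)))) ^ (g * ρ) :=
              pow_le_pow_left₀ (by linarith) g1 _
          _ = Real.exp (-(1 / 2)) := by
              rw [← Real.exp_nat_mul]
              congr 1
              have h10 : ((g * ρ : ℕ) : ℝ) = q / 2 := by
                rw [hq]
                push_cast
                ring
              rw [h10]
              field_simp
      have h11 : Real.exp (-(1 / 2)) ≤ 3 / 4 := by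
        rw [Real.exp_neg]
        have g2 : (3 : ℝ) / 2 ≤ Real.exp (1 / 2) := by
          have := Real.add_one_le_exp (1 / 2 : ℝ)
          linarith
        calc (Real.exp (1 / 2))⁻¹ ≤ (3 / 2 : ℝ)⁻¹ := inv_anti₀ (by norm_num) g2
          _ ≤ 3 / 4 := by norm_num
      have h12 : ((q : ℝ) - 1) ^ (g * ρ) = (1 - 1 / (q : ℝ)) ^ (g * ρ) * tot := by
        rw [htotval, ← mul_pow]
        congr 1
        field_simp
      rw [h12]
      exact mul_le_mul_of_nonneg_right (h9.trans h11) htot0.le
    linarith
  have h1 : cnt (fun f : X → (Fin g → Fin ρ → Fin q) => ∀ x ∈ T, f x ∈ Gd) ≤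
      cnt (fun a => T ⊆ Neg (e a)) := by
    apply H13.cnt_mono
    intro f hf x hx
    rw [mem_Neg]
    exact (Finset.mem_filter.1 (hf x hx)).2
  have h2 := H13.cnt_pi_const (ι := X) (γ := Fin g → Fin ρ → Fin q) T Gd
  rw [← htot] at h2
  have hcard : (Fintype.card (Fin g → Fin ρ → X → Fin q) : ℝ) = tot ^ Fintype.card X := by
    rw [← Fintype.card_congr e, Fintype.card_fun, Nat.cast_pow]
  rw [hcard]
  refine le_trans ?_ (mul_le_mul_of_nonneg_left h1 (by positivity))
  have htT : 0 < tot ^ T.card := by positivity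
  refine le_of_mul_le_mul_right ?_ htT
  calc tot ^ Fintype.card X * tot ^ T.card = tot ^ T.card * tot ^ Fintype.card X := mul_comm _ _
    _ ≤ (4 * (Gd.card : ℝ)) ^ T.card * tot ^ Fintype.card X :=
        mul_le_mul_of_nonneg_right (pow_le_pow_left₀ htot0.le hGdc _) (by positivity)
    _ = 4 ^ T.card * ((Gd.card : ℝ) ^ T.card * tot ^ Fintype.card X) := by
        rw [mul_pow]
        ring
    _ = 4 ^ T.card * cnt (fun f : X → (Fin g → Fin ρ → Fin q) => ∀ x ∈ T, f x ∈ Gd) *
          tot ^ T.card := by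
        rw [← h2]
        ring

section

variable {M k p D : ℕ}

/-- Groups and values. -/
def splitE : (Fin k → Fin p) × (Fin M × (Fin k → Fin D)) ≃ Fin M × (Fin k → Fin (p * D)) where
  toFun z := (z.2.1, fun κ => finProdFinEquiv (z.1 κ, z.2.2 κ))
  invFun z := (fun κ => (finProdFinEquiv.symm (z.2 κ)).1,
    (z.1, fun κ => (finProdFinEquiv.symm (z.2 κ)).2))
  left_inv z := by
    simp
  right_inv z := by
    refine Prod.ext rfl ?_
    funext κ
    exact finProdFinEquiv.apply_symm_apply (z.2 κ)

/-- The embedding of a block. -/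
def blockE (j : Fin (p ^ k)) :
    (Fin M × (Fin k → Fin D)) ↪ (Fin M × (Fin k → Fin (p * D))) where
  toFun x := splitE (finFunctionFinEquiv.symm j, x)
  inj' _ _ h := (Prod.mk.inj (splitE.injective h)).2

/-- Families of negative inputs of the blocks are negative inputs of the whole. -/
def gatherE {g ρ q : ℕ} : (Fin (p ^ k) → Fin g → Fin ρ → (Fin M × (Fin k → Fin D)) → Fin q) ≃
    (Fin g → Fin ρ → (Fin M × (Fin k → Fin (p * D))) → Fin q) where
  toFun ω i r z := ω (finFunctionFinEquiv (splitE.symm z).1) i r (splitE.symm z).2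
  invFun W j i r x := W i r (splitE (finFunctionFinEquiv.symm j, x))
  left_inv ω := by
    funext j i r x
    simp
  right_inv W := by
    funext i r z
    simp

theorem neg_gather {g ρ q : ℕ}
    (ω : Fin (p ^ k) → Fin g → Fin ρ → (Fin M × (Fin k → Fin D)) → Fin q) :
    pre blockE (fun w : Fin g → Fin ρ → (Fin M × (Fin k → Fin D)) → Fin q => Neg w) ω (p ^ k) =
      Neg (gatherE ω) := by
  ext z
  rw [mem_pre, mem_Neg]
  constructor
  · rintro ⟨j, _, hz⟩
    rw [Finset.mem_map] at hz
    obtain ⟨x, hx, rfl⟩ := hz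
    obtain ⟨i, r, h⟩ := (mem_Neg _ _).1 hx
    refine ⟨i, r, ?_⟩
    show (ω (finFunctionFinEquiv (splitE.symm (splitE (finFunctionFinEquiv.symm j, x))).1) i r
      (splitE.symm (splitE (finFunctionFinEquiv.symm j, x))).2).val = 0
    simpa using h
  · rintro ⟨i, r, h⟩
    refine ⟨finFunctionFinEquiv (splitE.symm z).1, Fin.is_lt _, ?_⟩
    rw [Finset.mem_map]
    refine ⟨(splitE.symm z).2, (mem_Neg _ _).2 ⟨i, r, h⟩, ?_⟩
    show splitE (finFunctionFinEquiv.symm (finFunctionFinEquiv (splitE.symm z).1),
      (splitE.symm z).2) = z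
    simp

/-- The planted input of a block is the input of a word. -/
theorem map_Yp {V : ℕ} (H : Fin M → Fin k → Fin V) (α : Fin k → Fin V → Fin D)
    (j : Fin (p ^ k)) :
    ∃ α' : Fin k → Fin V → Fin (p * D), (Yp H α).map (blockE j) = Yp H α' := by
  refine ⟨fun κ v => finProdFinEquiv ((finFunctionFinEquiv.symm j) κ, α κ v), ?_⟩
  ext z
  rw [Finset.mem_map, mem_Yp]
  constructor
  · rintro ⟨x, hx, rfl⟩
    rw [mem_Yp] at hx
    intro κ
    show finProdFinEquiv ((finFunctionFinEquiv.symm j) κ, x.2 κ) = _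
    rw [hx κ]
    rfl
  · intro hz
    refine ⟨(z.1, fun κ => α κ (H z.1 κ)), ?_, ?_⟩
    · rw [mem_Yp]
      intro κ
      rfl
    · show (z.1, fun κ => finProdFinEquiv ((finFunctionFinEquiv.symm j) κ, α κ (H z.1 κ))) = z
      apply Prod.ext
      · rfl
      · funext κ
        exact (hz κ).symm

end

end Pool.Agent.H25.NS
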