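import Pool.Agent.H13.MonoFinal
import Pool.Agent.H25.NS.Global

/-!
The lower bound with explicit parameters.
-/

namespace Pool.Agent.H25.NS

set_option linter.unusedSectionVars false

open Finset
open H13 (cnt Neg Yp mem_Neg mem_Yp Clause Satisfiable Tup HW blk Atom AppData)
open Pool.Agent.H25.NM (nc)

theorem transport {α β : Type} (iα : Fintype α) (iβ : Fintype β) (e : α ≃ β) (p : α → Prop)
    (q : β → Prop) (hpq : ∀ x, p x ↔ q (e x))
    (h : @cnt β iβ q ≤ 1 / 2 * (@Fintype.card β iβ : ℝ)) :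
    (@nc α iα p : ℝ) ≤ 1 / 2 * (@Fintype.card α iα : ℝ) := by
  have h1 : nc p = nc fun x => q (e x) := Pool.Agent.H25.NM.nc_congr hpq
  have h2 : nc (fun x => q (e x)) = nc q := Pool.Agent.H25.NM.nc_equiv e q
  have h3 : Fintype.card α = Fintype.card β := Fintype.card_congr e
  rw [cnt_eq_nc] at h
  rw [h1, h2, h3]
  exact h

theorem few_core {X Z Ω A ι : Type} [Fintype X] [DecidableEq X] [DecidableEq Z] [Fintype Ω]
    [Fintype A] [Nonempty Ω] [Nonempty A] {J s : ℕ} {φ : Fin J → X ↪ Z} {N : Ω → Finset X}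
    {Y : A → Finset X} {ε : ℝ} (hε : 0 ≤ ε) (hJε : (J : ℝ) * ε ≤ 1)
    (BL : ∀ F : Finset X → Prop, ASize s F →
      (nc (fun x : A × Ω => F (Y x.1) ∧ ¬ F (N x.2)) : ℝ) ≤
        Fintype.card A * nc (fun ω => F (N ω)) + ε * (Fintype.card A * Fintype.card Ω))
    (T : Finset ι) (M : ι → Finset Z → Prop) (hM : ∀ t ∈ T, ASize s (M t))
    (f : Finset Z → Prop) (hf : ∀ x y, (∀ t ∈ T, M t x ↔ M t y) → (f x ↔ f y))
    (Bad : Finset Z → Prop) (hmono : ∀ x y, x ⊆ y → Bad x → Bad y)
    (hneg : ∀ x, ¬ Bad x → ¬ f x)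
    (hpos : ∀ (j : Fin J) (α : A) (G : Finset Z), f (G ∪ (Y α).map (φ j)))
    (hbad : (nc (fun ω : Fin J → Ω => Bad (pre φ N ω J)) : ℝ) ≤
      1 / 2 * (Fintype.card (Fin J → Ω) : ℝ)) : J ≤ 6 * T.card := by
  have hchain := chain_bound (φ := φ) (N := N) (Y := Y) hε BL T M hM f hf (fun x => ¬ Bad x)
    (fun x y hxy hy hx => hy (hmono x y hxy hx)) hneg hpos
  set tot : ℝ := (Fintype.card (Fin J → Ω) : ℝ) with htot
  have htot0 : 0 < tot := by
    rw [htot]
    exact_mod_cast Fintype.card_pos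
  have hgood : 1 / 2 * tot ≤ (nc (fun ω : Fin J → Ω => ¬ Bad (pre φ N ω J)) : ℝ) := by
    have h1 := Pool.Agent.H25.NM.nc_add_nc_not (fun ω : Fin J → Ω => Bad (pre φ N ω J))
    have h2 : (nc (fun ω : Fin J → Ω => Bad (pre φ N ω J)) : ℝ) +
        (nc (fun ω : Fin J → Ω => ¬ Bad (pre φ N ω J)) : ℝ) = tot := by
      rw [htot]
      exact_mod_cast h1
    linarith
  have hTc : (T.card : ℝ) * (2 + (J : ℝ) * ε) * tot ≤ T.card * 3 * tot := by
    apply mul_le_mul_of_nonneg_right _ htot0.le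
    apply mul_le_mul_of_nonneg_left _ (by positivity)
    linarith
  have h5 : (J : ℝ) * (1 / 2 * tot) ≤ T.card * 3 * tot :=
    (mul_le_mul_of_nonneg_left hgood (by positivity)).trans (hchain.trans hTc)
  have h6 : (J : ℝ) ≤ 6 * T.card := by
    have h7 : (J : ℝ) * tot ≤ (6 * T.card) * tot := by linarith
    exact le_of_mul_le_mul_right h7 htot0
  exact_mod_cast h6

theorem few_explicit {k V D p M c' β a g ρ n s : ℕ} (hk : 3 ≤ k) (hβ : 3 ≤ β)
    (ha : a + 1 = β * (k - 1)) (hc2 : 2 ≤ c') (hV : 1 ≤ V) (hD : 1 ≤ D)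
    (hN : a * (2 * c') ≤ β * (k * V))
    (hH : 12 ^ β * 3 ^ a * k ^ (k * β) * M ^ β * (2 * c') ≤ V ^ (β + 1))
    (hρ1 : 1 ≤ ρ) (hρ : 2 * c' < 2 ^ ρ) (hg : 1 ≤ g)
    (hR : (64 * ρ * (2 * (g * ρ))) ^ β ≤ D ^ a)
    (hG : (M * D ^ k + 1) ^ (2 * c') * 4 ^ c' ≤ 2 ^ g)
    (hM : 2 * (p * D) ^ (k * V) ≤ 2 ^ M)
    (hn : k * V * (2 * (p * D) + 1) ≤ n)
    (he : ((p ^ k : ℕ) : ℝ) * (2 * (s * s + 1) * (1 / 4) ^ c') ≤ 1)
    {ι : Type} (T : Finset ι) (Mt : ι → Finset (Clause n k) → Prop)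
    (hMt : ∀ t ∈ T, MonoSize s (Mt t))
    (hf : ∀ x y, (∀ t ∈ T, Mt t x ↔ Mt t y) → (Satisfiable x ↔ Satisfiable y)) :
    p ^ k ≤ 6 * T.card := by
  classical
  obtain ⟨H, hexp⟩ := H13.exists_expanding (K := k) (V := V) (M := M) (c := 2 * c') (β := β)
    (a := a) hk (by omega) ha hV hN hH
  have hinj := H13.expanding_injective hk hβ ha (by omega) H hexp
  set q : ℕ := 2 * (g * ρ) with hq
  have hq0 : 0 < q := by
    have : 0 < g * ρ := Nat.mul_pos hg hρ1
    omega
  -- the whole ground set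
  let Z := Fin M × (Fin k → Fin (p * D))
  let X := Fin M × (Fin k → Fin D)
  let θ : Z → Tup k V (p * D) := fun z κ => (H z.1 κ, z.2 κ)
  have hθinj : Function.Injective θ := by
    intro z z' h
    have h1 : ∀ κ, H z.1 κ = H z'.1 κ ∧ z.2 κ = z'.2 κ := by
      intro κ
      have := congrFun h κ
      exact Prod.mk.inj this
    apply Prod.ext
    · exact hinj (funext fun κ => (h1 κ).1)
    · exact funext fun κ => (h1 κ).2
  let E0 : Finset (Tup k V (p * D)) := univ.image θ
  obtain ⟨φ, hφ, hφs⟩ := H13.encode_atom (K := k) (V := V) (D := p * D) (n := n) (k := k) le_rfl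
    hk hn E0
  let xy : Finset Z → Tup k V (p * D) → Bool := fun y e => decide (∃ z ∈ y, θ z = e)
  let G : Finset Z → Finset (Clause n k) := fun y =>
    univ.filter (fun c : Clause n k => φ c (xy y) = true)
  have hHW : ∀ y : Finset Z, Satisfiable (G y) ↔ ∃ α : Fin k → Fin V → Fin (p * D), Yp H α ⊆ y := by
    intro y
    rw [hφs (xy y)]
    constructor
    · rintro ⟨α, hα⟩
      refine ⟨α, ?_⟩
      intro z hz
      have h1 := mem_Yp.1 hz
      have h2 := hα (θ z) (Finset.mem_image_of_mem _ (Finset.mem_univ z)) (by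
        intro κ
        exact h1 κ)
      have h3 : ∃ z' ∈ y, θ z' = θ z := of_decide_eq_true h2
      obtain ⟨z', hz', h4⟩ := h3
      rw [← hθinj h4]
      exact hz'
    · rintro ⟨α, hα⟩
      refine ⟨α, ?_⟩
      intro e he hin
      obtain ⟨z, _, rfl⟩ := Finset.mem_image.1 he
      apply decide_eq_true
      refine ⟨z, ?_, rfl⟩
      apply hα
      rw [mem_Yp]
      intro κ
      exact hin κ
  have hat : ∀ c, Atom (fun y : Finset Z => c ∉ G y) := by
    intro c
    have hmem : ∀ y : Finset Z, c ∉ G y ↔ φ c (xy y) = false := by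
      intro y
      show c ∉ univ.filter (fun c : Clause n k => φ c (xy y) = true) ↔ _
      rw [Finset.mem_filter]
      simp
    rcases hφ c with h | h | ⟨e, h⟩
    · left
      intro y
      show ¬ (c ∉ G y)
      rw [hmem, h]
      simp
    · right; left
      intro y
      show c ∉ G y
      rw [hmem, h]
    · by_cases he : ∃ z, θ z = e
      · obtain ⟨z, hz⟩ := he
        right; right
        refine ⟨z, fun y => ?_⟩
        show c ∉ G y ↔ z ∈ y
        rw [hmem, h, Bool.not_eq_false']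
        constructor
        · intro h1
          have h2 : ∃ z' ∈ y, θ z' = e := of_decide_eq_true h1
          obtain ⟨z', hz', h4⟩ := h2
          rw [← hz] at h4
          rw [← hθinj h4]
          exact hz'
        · intro hy
          exact decide_eq_true ⟨z, hy, hz⟩
      · left
        intro y
        show ¬ (c ∉ G y)
        rw [hmem, h, Bool.not_eq_false']
        intro h1
        have h2 : ∃ z' ∈ y, θ z' = e := of_decide_eq_true h1
        obtain ⟨z', _, h4⟩ := h2
        exact he ⟨z', h4⟩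
  -- the approximation on a block
  set Rr : ℝ := (4 * ρ : ℝ) * q with hRr
  have hρ' : (1 : ℝ) ≤ ρ := by exact_mod_cast hρ1
  have hq' : (1 : ℝ) ≤ q := by exact_mod_cast hq0
  have hR1 : 1 ≤ Rr := by
    rw [hRr]
    nlinarith
  have hexpR : ∀ J : Finset (Fin M), J.card ≤ 2 * c' →
      (16 * Rr) ^ J.card ≤ (D : ℝ) ^ (blk H J).card := by
    intro J hJ
    have h1 := hexp J hJ
    have h2 : ((64 * ρ * q) ^ J.card) ^ β ≤ (D ^ (blk H J).card) ^ β := by
      calc ((64 * ρ * q) ^ J.card) ^ β = ((64 * ρ * q) ^ β) ^ J.card := by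
            rw [← pow_mul, ← pow_mul, mul_comm J.card β]
        _ ≤ (D ^ a) ^ J.card := Nat.pow_le_pow_left hR _
        _ = D ^ (a * J.card) := by rw [← pow_mul]
        _ ≤ D ^ (β * (blk H J).card) := Nat.pow_le_pow_right hD h1
        _ = (D ^ (blk H J).card) ^ β := by rw [← pow_mul, mul_comm β]
    have h3 : (64 * ρ * q) ^ J.card ≤ D ^ (blk H J).card :=
      (Nat.pow_le_pow_iff_left (by omega)).1 h2
    have h4 : (16 * Rr) ^ J.card = (((64 * ρ * q) ^ J.card : ℕ) : ℝ) := by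
      rw [hRr]; push_cast; ring
    rw [h4]
    exact_mod_cast h3
  have hpos16 : ∀ S : Finset X, S.card ≤ 2 * c' →
      cnt (fun α : Fin k → Fin V → Fin D => S ⊆ Yp H α) * (16 * Rr) ^ S.card ≤
        Fintype.card (Fin k → Fin V → Fin D) :=
    fun S hS => H13.pos_spread H (16 * Rr) (by linarith) hexpR S hS
  have hApp : AppData (fun w : Fin g → Fin ρ → X → Fin q => Neg w)
      (fun α : Fin k → Fin V → Fin D => Yp H α) c' Rr ((1 / 2) ^ g) :=
    { hc := by omega
      hR := hR1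
      hδ := by positivity
      hcover := fun J hJ hsize hsp => H13.neg_cover hq0 hρ1 hρ J hJ hsize hsp
      hpos := fun S hS => by
        refine le_trans (mul_le_mul_of_nonneg_left ?_ (H13.cnt_nonneg _)) (hpos16 S hS)
        exact pow_le_pow_left₀ (by linarith) (by linarith) _
      hneg := by
        have h1 := H13.card_small_sets (X := X) (2 * c')
        have h2 : Fintype.card X = M * D ^ k := by
          simp [X]
        rw [h2] at h1
        have h3 : (univ.filter (fun T : Finset X => T.card ≤ 2 * c')).card * 4 ^ c' ≤ 2 ^ g :=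
          (Nat.mul_le_mul_right _ h1).trans hG
        have h4 : ((univ.filter (fun T : Finset X => T.card ≤ 2 * c')).card : ℝ) * 4 ^ c'
            ≤ 2 ^ g := by exact_mod_cast h3
        rw [div_pow, div_pow, one_pow, one_pow, mul_one_div, div_le_div_iff₀ (by positivity)
          (by positivity)]
        linarith }
  have : NeZero q := ⟨hq0.ne'⟩
  have : NeZero D := ⟨by omega⟩
  have hε0 : (0 : ℝ) ≤ 2 * (s * s + 1) * (1 / 4) ^ c' := by positivity
  have BL : ∀ F : Finset X → Prop, ASize s F →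
      (nc (fun x : (Fin k → Fin V → Fin D) × (Fin g → Fin ρ → X → Fin q) =>
        F (Yp H x.1) ∧ ¬ F (Neg x.2)) : ℝ) ≤
        Fintype.card (Fin k → Fin V → Fin D) *
          nc (fun w : Fin g → Fin ρ → X → Fin q => F (Neg w)) +
        (2 * (s * s + 1) * (1 / 4) ^ c') *
          (Fintype.card (Fin k → Fin V → Fin D) * Fintype.card (Fin g → Fin ρ → X → Fin q)) :=
    fun F hF => block_bound hApp hpos16 (fun S => neg_contains_ge hq hq0 S) hF
  -- the negative inputs are mostly rejected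
  have hW : cnt (fun W : Fin g → Fin ρ → Z → Fin q =>
      ∃ α : Fin k → Fin V → Fin (p * D), Yp H α ⊆ Neg W) ≤
      1 / 2 * (Fintype.card (Fin g → Fin ρ → Z → Fin q) : ℝ) := by
    have e1 : cnt (fun W : Fin g → Fin ρ → Z → Fin q =>
        ∃ α : Fin k → Fin V → Fin (p * D), Yp H α ⊆ Neg W) ≤
        cnt (fun W : Fin g → Fin ρ → Z → Fin q =>
          ∃ α ∈ (univ : Finset (Fin k → Fin V → Fin (p * D))), Yp H α ⊆ Neg W) := by
      apply H13.cnt_mono
      rintro W ⟨α, hα⟩
      exact ⟨α, Finset.mem_univ _, hα⟩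
    refine e1.trans ((H13.cnt_exists _ _).trans ?_)
    have h2 : ∀ α ∈ (univ : Finset (Fin k → Fin V → Fin (p * D))),
        cnt (fun w : Fin g → Fin ρ → Z → Fin q => Yp H α ⊆ Neg w) ≤
          (1 / 2) ^ M * (Fintype.card (Fin g → Fin ρ → Z → Fin q) : ℝ) := by
      intro α _
      have := H13.neg_contains (g := g) (ρ := ρ) (q := q) hq hq0 (Yp H α)
      rw [H13.card_Yp] at this
      exact this
    refine (Finset.sum_le_sum h2).trans ?_
    rw [Finset.sum_const, nsmul_eq_mul, Finset.card_univ, ← mul_assoc]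
    apply mul_le_mul_of_nonneg_right _ (by positivity)
    have h3 : (Fintype.card (Fin k → Fin V → Fin (p * D)) : ℝ) = ((p * D : ℕ) : ℝ) ^ (k * V) := by
      simp only [Fintype.card_fun, Fintype.card_fin]
      rw [Nat.cast_pow, Nat.cast_pow, ← pow_mul, mul_comm V k]
    rw [h3, div_pow, one_pow, mul_one_div, div_le_div_iff₀ (by positivity) (by norm_num)]
    have h4 : ((2 * (p * D) ^ (k * V) : ℕ) : ℝ) ≤ ((2 ^ M : ℕ) : ℝ) := by exact_mod_cast hM
    rw [Nat.cast_mul, Nat.cast_pow, Nat.cast_pow] at h4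
    rw [Nat.cast_ofNat] at h4
    linarith
  -- the chain
  refine few_core (J := p ^ k) (φ := (blockE : Fin (p ^ k) → X ↪ Z))
    (N := fun w : Fin g → Fin ρ → X → Fin q => Neg w)
    (Y := fun α : Fin k → Fin V → Fin D => Yp H α) hε0 he BL T
    (fun t y => ¬ Mt t (G y)) (fun t ht => (hMt t ht).compl G hat)
    (fun y => Satisfiable (G y))
    (fun x y hxy => hf _ _ fun t ht => not_iff_not.1 (hxy t ht))
    (fun x => ∃ α : Fin k → Fin V → Fin (p * D), Yp H α ⊆ x)
    (fun x y hxy ⟨α, hα⟩ => ⟨α, hα.trans hxy⟩)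
    (fun x hx hsat => hx ((hHW x).1 hsat))
    (fun j α B => (hHW _).2 (by
      obtain ⟨α', hα'⟩ := map_Yp H α j
      refine ⟨α', ?_⟩
      rw [← hα']
      exact Finset.subset_union_right)) ?_
  refine transport _ _ (gatherE (M := M) (k := k) (p := p) (D := D) (g := g)
        (ρ := ρ) (q := q)) _ _ (fun ω => ?_) hW
  rw [← neg_gather ω]

end Pool.Agent.H25.NS
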