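import Pool.Agent.H13.MonoParams

/-!
Choice of parameters for the lower bound for circuits with few arbitrary gates.
-/

namespace Pool.Agent.H25.NS

/-- All integer parameters of the lower bound. -/
theorem few_params (k β a : ℕ) (hk : 3 ≤ k) (hβ : 3 ≤ β) (ha : a + 1 = β * (k - 1)) (E τ : ℝ)
    (hE0 : 0 < E) (hτ : 0 ≤ τ) (hE : τ + E * (1 + (β : ℝ) / a) < 1) :
    ∃ n0 : ℕ, ∀ n : ℕ, n0 ≤ n → ∃ c' V D M g ρ p : ℕ, 2 ≤ c' ∧
      (n : ℝ) ^ E ≤ ((c' - 1 : ℕ) : ℝ) ∧ 1 ≤ p ∧ (n : ℝ) ^ τ ≤ p ∧ p ≤ n ∧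
      1 ≤ V ∧ 1 ≤ D ∧ a * (2 * c') ≤ β * (k * V) ∧
      12 ^ β * 3 ^ a * k ^ (k * β) * M ^ β * (2 * c') ≤ V ^ (β + 1) ∧
      1 ≤ ρ ∧ 2 * c' < 2 ^ ρ ∧ 1 ≤ g ∧ (64 * ρ * (2 * (g * ρ))) ^ β ≤ D ^ a ∧
      (M * D ^ k + 1) ^ (2 * c') * 4 ^ c' ≤ 2 ^ g ∧ 2 * (p * D) ^ (k * V) ≤ 2 ^ M ∧
      k * V * (2 * (p * D) + 1) ≤ n := by
  have ha1 : β ≤ a := by
    have : β * 2 ≤ β * (k - 1) := Nat.mul_le_mul_left _ (by omega)
    omega
  have ha0 : (0 : ℝ) < a := by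
    have : 0 < a := by omega
    exact_mod_cast this
  have haβk : a ≤ β * k := by
    have : β * (k - 1) ≤ β * k := Nat.mul_le_mul_left _ (Nat.sub_le _ _)
    omega
  have hβ0 : (0 : ℝ) < β := by
    have : 0 < β := by omega
    exact_mod_cast this
  have hk3 : (3 : ℝ) ≤ k := by exact_mod_cast hk
  obtain ⟨r, hr⟩ : ∃ r : ℝ, r = (β : ℝ) / a := ⟨_, rfl⟩
  rw [← hr] at hE
  have hr0 : 0 < r := by rw [hr]; positivity
  have hr1 : r ≤ 1 := by
    rw [hr, div_le_one ha0]; exact_mod_cast ha1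
  obtain ⟨δ, hδ⟩ : ∃ δ : ℝ, δ = 1 - (τ + E * (1 + r)) := ⟨_, rfl⟩
  have hδ0 : 0 < δ := by rw [hδ]; linarith
  -- the constant
  obtain ⟨Cβ, hCβ⟩ : ∃ Cβ : ℝ, Cβ = 12 ^ β * 3 ^ a * (k : ℝ) ^ (k * β) := ⟨_, rfl⟩
  have hCβ1 : 1 ≤ Cβ := by
    rw [hCβ]
    have h1 : (1 : ℝ) ≤ 12 ^ β := one_le_pow₀ (by norm_num)
    have h2 : (1 : ℝ) ≤ 3 ^ a := one_le_pow₀ (by norm_num)
    have h3 : (1 : ℝ) ≤ (k : ℝ) ^ (k * β) := one_le_pow₀ (by linarith)
    exact one_le_mul_of_one_le_of_one_le (one_le_mul_of_one_le_of_one_le h1 h2) h3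
  obtain ⟨Cg, hCg⟩ : ∃ Cg : ℝ, Cg = 3072 * (k + 4) := ⟨_, rfl⟩
  have hCg1 : 1 ≤ Cg := by rw [hCg]; linarith
  obtain ⟨n1, hn1⟩ := H13.asymP (6 * k * (Cβ * (2 * k) ^ β * (6 * (4 * Cg))) * 2 ^ (β + 3)) δ (β + 3) hδ0
  obtain ⟨n2, hn2⟩ := H13.asymP (4 * k) 1 1 (by norm_num)
  obtain ⟨n3, hn3⟩ := H13.asymP 3 (1 - E) 0 (by
    have : E * 1 ≤ E * (1 + r) := mul_le_mul_of_nonneg_left (by linarith) hE0.le
    linarith)
  refine ⟨max (max n1 n2) (max n3 2), ?_⟩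
  intro n hn
  have hn1' := hn1 n (le_trans (le_trans (le_max_left _ _) (le_max_left _ _)) hn)
  have hn2' := hn2 n (le_trans (le_trans (le_max_right _ _) (le_max_left _ _)) hn)
  have hn3' := hn3 n (le_trans (le_trans (le_max_left _ _) (le_max_right _ _)) hn)
  have hn2'' : 2 ≤ n := le_trans (le_trans (le_max_right _ _) (le_max_right _ _)) hn
  obtain ⟨x, hx⟩ : ∃ x : ℝ, x = (n : ℝ) := ⟨_, rfl⟩
  rw [← hx] at hn1' hn2' hn3' ⊢
  have hx2 : (2 : ℝ) ≤ x := by rw [hx]; exact_mod_cast hn2''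
  have hx0 : 0 < x := by linarith
  have hx1 : 1 ≤ x := by linarith
  obtain ⟨lam, hlam⟩ : ∃ lam : ℕ, lam = Nat.log 2 n + 1 := ⟨_, rfl⟩
  have hlam1 : 1 ≤ lam := by omega
  have hlamn : n < 2 ^ lam := by
    rw [hlam]; exact Nat.lt_pow_succ_log_self (by norm_num) n
  have hlamle : (lam : ℝ) ≤ 2 * (Real.log x + 3) := by
    rw [hlam, hx]; exact H13.natlog_le n (by omega)
  have hlog0 : 0 ≤ Real.log x := Real.log_nonneg hx1
  have hlamR1 : (1 : ℝ) ≤ lam := by exact_mod_cast hlam1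
  have hxE : 1 ≤ x ^ E := Real.one_le_rpow hx1 hE0.le
  -- c'
  obtain ⟨c, hc⟩ : ∃ c : ℕ, c = ⌈x ^ E⌉₊ + 1 := ⟨_, rfl⟩
  have hcge : x ^ E ≤ ((c - 1 : ℕ) : ℝ) := by
    rw [hc, Nat.add_sub_cancel]; exact Nat.le_ceil _
  have hcle : (c : ℝ) ≤ 3 * x ^ E := by
    have := Nat.ceil_lt_add_one (show 0 ≤ x ^ E by linarith)
    rw [hc]; push_cast; linarith
  have hc2 : 2 ≤ c := by
    have : 1 ≤ c - 1 := by
      have h1 : (1 : ℝ) ≤ ((c - 1 : ℕ) : ℝ) := hxE.trans hcge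
      exact_mod_cast h1
    omega
  have hcR : (2 : ℝ) ≤ c := by exact_mod_cast hc2
  have hcn : c ≤ n := by
    have h1 : 3 * x ^ E ≤ x := by
      rw [pow_zero, mul_one] at hn3'
      calc 3 * x ^ E ≤ x ^ (1 - E) * x ^ E := mul_le_mul_of_nonneg_right hn3' (by positivity)
        _ = x := by rw [← Real.rpow_add hx0]; simp
    have h2 : (c : ℝ) ≤ n := by rw [← hx]; linarith
    exact_mod_cast h2
  obtain ⟨ρ, hρ⟩ : ∃ ρ : ℕ, ρ = lam + 1 := ⟨_, rfl⟩
  obtain ⟨g, hg⟩ : ∃ g : ℕ, g = 2 * c * (lam * (k + 3)) + 2 * c := ⟨_, rfl⟩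
  have hg1 : 1 ≤ g := by omega
  have hgR : (g : ℝ) ≤ 2 * c * (lam * (k + 4)) := by
    rw [hg]; push_cast
    have : 2 * (c : ℝ) ≤ 2 * c * lam := le_mul_of_one_le_right (by positivity) hlamR1
    nlinarith
  have hgR1 : (1 : ℝ) ≤ g := by exact_mod_cast hg1
  have hρR : (ρ : ℝ) ≤ 2 * lam := by rw [hρ]; push_cast; linarith
  have hρR1 : (1 : ℝ) ≤ ρ := by rw [hρ]; push_cast; linarith
  obtain ⟨Q, hQ⟩ : ∃ Q : ℝ, Q = 64 * ρ * (2 * (g * ρ)) := ⟨_, rfl⟩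
  have hQ1 : 1 ≤ Q := by
    rw [hQ]
    have h1 : (1 : ℝ) ≤ g * ρ := one_le_mul_of_one_le_of_one_le hgR1 hρR1
    have h2 : (1 : ℝ) ≤ ρ * (g * ρ) := one_le_mul_of_one_le_of_one_le hρR1 h1
    linarith
  have hQle : Q ≤ Cg * (x ^ E * (lam : ℝ) ^ 3) := by
    rw [hQ, hCg]
    have h1 : (ρ : ℝ) * ρ ≤ (2 * lam) * (2 * lam) := mul_le_mul hρR hρR (by positivity) (by positivity)
    have h2 : (g : ℝ) * (ρ * ρ) ≤ (2 * c * (lam * (k + 4))) * ((2 * lam) * (2 * lam)) :=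
      mul_le_mul hgR h1 (by positivity) (by positivity)
    have h3 : (2 * c * (lam * (k + 4))) * ((2 * lam) * (2 * lam))
        ≤ (2 * (3 * x ^ E) * (lam * (k + 4))) * ((2 * (lam : ℝ)) * (2 * lam)) := by
      apply mul_le_mul_of_nonneg_right _ (by positivity)
      apply mul_le_mul_of_nonneg_right _ (by positivity)
      linarith
    calc 64 * (ρ : ℝ) * (2 * (g * ρ)) = 128 * (g * (ρ * ρ)) := by ring
      _ ≤ 128 * ((2 * (3 * x ^ E) * (lam * (k + 4))) * ((2 * (lam : ℝ)) * (2 * lam))) := by linarith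
      _ = 3072 * (k + 4) * (x ^ E * (lam : ℝ) ^ 3) := by ring
  obtain ⟨D, hD⟩ : ∃ D : ℕ, D = ⌈Q ^ r⌉₊ := ⟨_, rfl⟩
  have hQr1 : 1 ≤ Q ^ r := Real.one_le_rpow hQ1 hr0.le
  have hDge : Q ^ r ≤ D := by rw [hD]; exact Nat.le_ceil _
  have hDle : (D : ℝ) ≤ 2 * Q ^ r := by
    have := Nat.ceil_lt_add_one (show 0 ≤ Q ^ r by linarith)
    rw [hD]; linarith
  have hD1 : (1 : ℝ) ≤ D := hQr1.trans hDge
  have hD1' : 1 ≤ D := by exact_mod_cast hD1
  have hQrle : Q ^ r ≤ Cg * (x ^ (E * r) * (lam : ℝ) ^ 3) := by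
    calc Q ^ r ≤ (Cg * (x ^ E * (lam : ℝ) ^ 3)) ^ r :=
          Real.rpow_le_rpow (by linarith) hQle hr0.le
      _ = Cg ^ r * ((x ^ E) ^ r * ((lam : ℝ) ^ 3) ^ r) := by
          rw [Real.mul_rpow (by linarith) (by positivity),
            Real.mul_rpow (by positivity) (by positivity)]
      _ ≤ Cg * (x ^ (E * r) * (lam : ℝ) ^ 3) := by
          have h1 : Cg ^ r ≤ Cg := by
            calc Cg ^ r ≤ Cg ^ (1 : ℝ) := Real.rpow_le_rpow_of_exponent_le hCg1 hr1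
              _ = Cg := Real.rpow_one _
          have h2 : ((lam : ℝ) ^ 3) ^ r ≤ (lam : ℝ) ^ 3 := by
            calc ((lam : ℝ) ^ 3) ^ r ≤ ((lam : ℝ) ^ 3) ^ (1 : ℝ) :=
                  Real.rpow_le_rpow_of_exponent_le (one_le_pow₀ hlamR1) hr1
              _ = (lam : ℝ) ^ 3 := Real.rpow_one _
          have h3 : (x ^ E) ^ r = x ^ (E * r) := by rw [← Real.rpow_mul hx0.le]
          rw [h3]
          apply mul_le_mul h1 _ (by positivity) (by positivity)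
          exact mul_le_mul_of_nonneg_left h2 (by positivity)
  -- the number of groups
  have hxτ : 1 ≤ x ^ τ := Real.one_le_rpow hx1 hτ
  obtain ⟨p, hp⟩ : ∃ p : ℕ, p = ⌈x ^ τ⌉₊ := ⟨_, rfl⟩
  have hpge : x ^ τ ≤ p := by rw [hp]; exact Nat.le_ceil _
  have hple : (p : ℝ) ≤ 2 * x ^ τ := by
    have := Nat.ceil_lt_add_one (show 0 ≤ x ^ τ by linarith)
    rw [hp]; linarith
  have hp1 : (1 : ℝ) ≤ p := hxτ.trans hpge
  have hp1' : 1 ≤ p := by exact_mod_cast hp1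
  -- the main inequality
  obtain ⟨Lp, hLp⟩ : ∃ Lp : ℕ, Lp = k * lam + 1 := ⟨_, rfl⟩
  have hLpR : (Lp : ℝ) ≤ 2 * k * lam := by
    rw [hLp]; push_cast
    have : (1 : ℝ) ≤ k * lam := one_le_mul_of_one_le_of_one_le (by linarith) hlamR1
    linarith
  have hmain : 6 * k * (p * D) * (Cβ * (Lp : ℝ) ^ β * (2 * c)) ≤ x := by
    have h0 : (D : ℝ) ≤ 2 * (Cg * (x ^ (E * r) * (lam : ℝ) ^ 3)) := by linarith
    have h1 : (p * D : ℝ) ≤ (2 * x ^ τ) * (2 * (Cg * (x ^ (E * r) * (lam : ℝ) ^ 3))) :=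
      mul_le_mul hple h0 (by positivity) (by positivity)
    have h2 : (Lp : ℝ) ^ β ≤ (2 * k) ^ β * (lam : ℝ) ^ β := by
      rw [← mul_pow]
      exact pow_le_pow_left₀ (by positivity) hLpR β
    have hCβ0 : 0 ≤ Cβ := by linarith
    have hCg0 : 0 ≤ Cg := by linarith
    calc 6 * k * (p * D) * (Cβ * (Lp : ℝ) ^ β * (2 * c))
        ≤ 6 * k * ((2 * x ^ τ) * (2 * (Cg * (x ^ (E * r) * (lam : ℝ) ^ 3))))
          * (Cβ * ((2 * k) ^ β * (lam : ℝ) ^ β) * (2 * (3 * x ^ E))) := by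
          apply mul_le_mul
          · exact mul_le_mul_of_nonneg_left h1 (by positivity)
          · apply mul_le_mul
            · exact mul_le_mul_of_nonneg_left h2 hCβ0
            · linarith
            · positivity
            · positivity
          · positivity
          · positivity
      _ = 6 * k * (Cβ * (2 * k) ^ β * (6 * (4 * Cg))) * (lam : ℝ) ^ (β + 3)
          * (x ^ τ * x ^ E * x ^ (E * r)) := by
          rw [pow_add]; ring
      _ = 6 * k * (Cβ * (2 * k) ^ β * (6 * (4 * Cg))) * (lam : ℝ) ^ (β + 3) * x ^ (1 - δ) := by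
          rw [← Real.rpow_add hx0, ← Real.rpow_add hx0]
          congr 2
          rw [hδ]; ring
      _ ≤ 6 * k * (Cβ * (2 * k) ^ β * (6 * (4 * Cg))) * (2 * (Real.log x + 3)) ^ (β + 3)
          * x ^ (1 - δ) := by
          apply mul_le_mul_of_nonneg_right _ (by positivity)
          apply mul_le_mul_of_nonneg_left _ (by positivity)
          exact pow_le_pow_left₀ (by positivity) hlamle _
      _ = (6 * k * (Cβ * (2 * k) ^ β * (6 * (4 * Cg))) * 2 ^ (β + 3)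
          * (Real.log x + 3) ^ (β + 3)) * x ^ (1 - δ) := by
          rw [mul_pow (2 : ℝ) (Real.log x + 3)]; ring
      _ ≤ x ^ δ * x ^ (1 - δ) := mul_le_mul_of_nonneg_right hn1' (by positivity)
      _ = x := by rw [← Real.rpow_add hx0]; simp
  -- V
  obtain ⟨V, hV⟩ : ∃ V : ℕ, V = n / (k * (2 * (p * D) + 1)) := ⟨_, rfl⟩
  have hden0 : 0 < k * (2 * (p * D) + 1) := by
    exact Nat.mul_pos (by omega) (by omega)
  have hVn : V * (k * (2 * (p * D) + 1)) ≤ n := by rw [hV]; exact Nat.div_mul_le_self _ _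
  have hVlt : n < (V + 1) * (k * (2 * (p * D) + 1)) := by
    rw [hV]
    have := Nat.lt_div_mul_add (a := n) hden0
    calc n < n / (k * (2 * (p * D) + 1)) * (k * (2 * (p * D) + 1)) + k * (2 * (p * D) + 1) := this
      _ = _ := by ring
  have hVlt' : x < (V + 1) * (k * (2 * (p * D) + 1)) := by rw [hx]; exact_mod_cast hVlt
  obtain ⟨Z, hZ⟩ : ∃ Z : ℝ, Z = Cβ * (Lp : ℝ) ^ β * (2 * c) := ⟨_, rfl⟩
  rw [← hZ] at hmain
  have hLp1 : (1 : ℝ) ≤ Lp := by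
    rw [hLp]; push_cast
    have : (0 : ℝ) ≤ k * lam := by positivity
    linarith
  have hLpβ : (1 : ℝ) ≤ (Lp : ℝ) ^ β := one_le_pow₀ hLp1
  have hZc : 2 * (c : ℝ) ≤ Z := by
    rw [hZ]
    exact le_mul_of_one_le_left (by positivity) (one_le_mul_of_one_le_of_one_le hCβ1 hLpβ)
  have hVZ : Z ≤ V := by
    have hpD : (1 : ℝ) ≤ p * D := one_le_mul_of_one_le_of_one_le hp1 hD1
    have h1 : x < (V + 1) * (3 * k * (p * D)) := by
      refine hVlt'.trans_le ?_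
      apply mul_le_mul_of_nonneg_left _ (by positivity)
      have h9 : 2 * ((p : ℝ) * D) + 1 ≤ 3 * (p * D) := by linarith
      calc (k : ℝ) * (2 * (p * D) + 1) ≤ k * (3 * (p * D)) :=
            mul_le_mul_of_nonneg_left h9 (by linarith)
        _ = 3 * k * (p * D) := by ring
    have h5 : 2 * Z * (3 * k * (p * D)) ≤ x := by
      refine le_trans (le_of_eq ?_) hmain
      ring
    have h6 : 2 * Z < V + 1 := by
      have h7 : (0 : ℝ) < 3 * k * (p * D) := by positivity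
      exact lt_of_mul_lt_mul_right (lt_of_le_of_lt h5 h1) h7.le
    linarith
  have hV4 : (4 : ℝ) ≤ V := by linarith
  have hV1 : 1 ≤ V := by
    have : (1 : ℝ) ≤ V := by linarith
    exact_mod_cast this
  have hpDn : p * D ≤ n := by
    calc p * D = 1 * (1 * (p * D)) := by ring
      _ ≤ V * (k * (2 * (p * D) + 1)) := by
          apply Nat.mul_le_mul hV1
          apply Nat.mul_le_mul (by omega) (by omega)
      _ ≤ n := hVn
  have hDn : D ≤ n := (Nat.le_mul_of_pos_left D hp1').trans hpDn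
  have hpn : p ≤ n := (Nat.le_mul_of_pos_right p hD1').trans hpDn
  have hVn' : V ≤ n := by
    calc V = V * 1 := (mul_one _).symm
      _ ≤ V * (k * (2 * (p * D) + 1)) := Nat.mul_le_mul_left _ hden0
      _ ≤ n := hVn
  have hρ1 : 1 ≤ ρ := by rw [hρ]; exact Nat.le_add_left _ _
  refine ⟨c, V, D, V * Lp, g, ρ, p, hc2, hcge, hp1', hpge, hpn, hV1, hD1', ?_, ?_, hρ1, ?_,
    hg1, ?_, ?_, ?_, ?_⟩
  · have h1 : 2 * c ≤ V := by
      have : 2 * (c : ℝ) ≤ V := hZc.trans hVZ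
      exact_mod_cast this
    calc a * (2 * c) ≤ (β * k) * V := Nat.mul_le_mul haβk h1
      _ = β * (k * V) := by ring
  · have h1 : ((12 ^ β * 3 ^ a * k ^ (k * β) * (V * Lp) ^ β * (2 * c) : ℕ) : ℝ)
        ≤ ((V ^ (β + 1) : ℕ) : ℝ) := by
      push_cast
      calc 12 ^ β * 3 ^ a * (k : ℝ) ^ (k * β) * (V * Lp) ^ β * (2 * c)
          = Z * (V : ℝ) ^ β := by rw [hZ, hCβ, mul_pow]; ring
        _ ≤ V * (V : ℝ) ^ β := mul_le_mul_of_nonneg_right hVZ (by positivity)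
        _ = (V : ℝ) ^ (β + 1) := by rw [pow_succ]; ring
    exact_mod_cast h1
  · calc 2 * c ≤ 2 * n := Nat.mul_le_mul_left _ hcn
      _ < 2 * 2 ^ lam := Nat.mul_lt_mul_of_pos_left hlamn (by norm_num)
      _ = 2 ^ ρ := by rw [hρ, pow_succ]; ring
  · have h1 : (((64 * ρ * (2 * (g * ρ))) ^ β : ℕ) : ℝ) ≤ ((D ^ a : ℕ) : ℝ) := by
      push_cast
      rw [← hQ]
      calc Q ^ β = (Q ^ r) ^ a := by
            rw [← Real.rpow_natCast, ← Real.rpow_natCast, ← Real.rpow_mul (by linarith)]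
            congr 1
            rw [hr]; field_simp
        _ ≤ (D : ℝ) ^ a := pow_le_pow_left₀ (by positivity) hDge a
    exact_mod_cast h1
  · have hLpn : Lp ≤ 2 ^ lam := by
      have h1 : (Lp : ℝ) ≤ x := by
        rw [pow_one, Real.rpow_one] at hn2'
        calc (Lp : ℝ) ≤ 2 * k * lam := hLpR
          _ ≤ 2 * k * (2 * (Real.log x + 3)) := mul_le_mul_of_nonneg_left hlamle (by positivity)
          _ = 4 * k * (Real.log x + 3) := by ring
          _ ≤ x := hn2'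
      rw [hx] at h1
      have h2 : Lp ≤ n := by exact_mod_cast h1
      exact h2.trans hlamn.le
    have h1 : V * Lp * D ^ k + 1 ≤ 2 ^ (lam * (k + 3)) := by
      have h2 : V * Lp * D ^ k ≤ 2 ^ (lam * (k + 2)) := by
        calc V * Lp * D ^ k ≤ 2 ^ lam * 2 ^ lam * (2 ^ lam) ^ k := by
              apply Nat.mul_le_mul
              · exact Nat.mul_le_mul (hVn'.trans hlamn.le) hLpn
              · exact Nat.pow_le_pow_left (hDn.trans hlamn.le) k
          _ = 2 ^ (lam * (k + 2)) := by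
              rw [← pow_add, ← pow_mul, ← pow_add]; congr 1; ring
      have h3 : 2 ^ (lam * (k + 2)) + 1 ≤ 2 ^ (lam * (k + 3)) := by
        have h4 : lam * (k + 2) + 1 ≤ lam * (k + 3) := by
          calc lam * (k + 2) + 1 ≤ lam * (k + 2) + lam := Nat.add_le_add_left hlam1 _
            _ = lam * (k + 3) := by ring
        calc 2 ^ (lam * (k + 2)) + 1 ≤ 2 ^ (lam * (k + 2)) + 2 ^ (lam * (k + 2)) :=
              Nat.add_le_add_left Nat.one_le_two_pow _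
          _ = 2 ^ (lam * (k + 2) + 1) := by rw [pow_succ]; ring
          _ ≤ 2 ^ (lam * (k + 3)) := Nat.pow_le_pow_right (by norm_num) h4
      exact (Nat.add_le_add_right h2 1).trans h3
    calc (V * Lp * D ^ k + 1) ^ (2 * c) * 4 ^ c
        ≤ (2 ^ (lam * (k + 3))) ^ (2 * c) * 4 ^ c :=
          Nat.mul_le_mul_right _ (Nat.pow_le_pow_left h1 _)
      _ = 2 ^ g := by
          rw [show (4 : ℕ) = 2 ^ 2 by norm_num, ← pow_mul, ← pow_mul, ← pow_add, hg]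
          congr 1
          ring
  · calc 2 * (p * D) ^ (k * V) ≤ 2 * (2 ^ lam) ^ (k * V) := by
          apply Nat.mul_le_mul_left
          exact Nat.pow_le_pow_left (hpDn.trans hlamn.le) _
      _ = 2 ^ (lam * (k * V) + 1) := by rw [← pow_mul, pow_succ]; ring
      _ ≤ 2 ^ (V * Lp) := by
          apply Nat.pow_le_pow_right (by norm_num)
          rw [hLp]
          calc lam * (k * V) + 1 ≤ lam * (k * V) + V := Nat.add_le_add_left hV1 _
            _ = V * (k * lam + 1) := by ring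
  · calc k * V * (2 * (p * D) + 1) = V * (k * (2 * (p * D) + 1)) := by ring
      _ ≤ n := hVn

end Pool.Agent.H25.NS
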