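import Pool.Agent.H25.NS.Final
import Pool.Agent.H25.NS.Params

/-!
Circuits with few arbitrary gates that decide satisfiability of formulas of bounded width.
-/

namespace Pool.Agent.H25.NS

open H13 (Clause Satisfiable)

/-- The choice of the expansion constant. -/
theorem exists_beta (k : ℕ) (hk : 3 ≤ k) {E₁ γ : ℝ} (hE0 : 0 < E₁) (hE1 : E₁ ≤ 1) (hγ : 0 < γ) :
    ∃ β a : ℕ, 3 ≤ β ∧ a + 1 = β * (k - 1) ∧
      E₁ * (1 + (β : ℝ) / a) ≤ E₁ * (k / ((k : ℝ) - 1)) + γ := by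
  obtain ⟨β0, hβ0⟩ := exists_nat_gt (1 / γ)
  obtain ⟨β, hβ3, hββ⟩ : ∃ β : ℕ, 3 ≤ β ∧ β0 ≤ β := ⟨max 3 β0, le_max_left _ _, le_max_right _ _⟩
  obtain ⟨a, ha⟩ : ∃ a : ℕ, a + 1 = β * (k - 1) := by
    have : 3 * 2 ≤ β * (k - 1) := Nat.mul_le_mul hβ3 (by omega)
    exact ⟨β * (k - 1) - 1, by omega⟩
  refine ⟨β, a, hβ3, ha, ?_⟩
  have hk3 : (3 : ℝ) ≤ k := by exact_mod_cast hk
  have hβR : (3 : ℝ) ≤ β := by exact_mod_cast hβ3
  have haR : (a : ℝ) = β * ((k : ℝ) - 1) - 1 := by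
    have h1 : ((a + 1 : ℕ) : ℝ) = ((β * (k - 1) : ℕ) : ℝ) := by exact_mod_cast ha
    push_cast [Nat.cast_sub (show 1 ≤ k by omega)] at h1
    linarith
  have ha0 : (0 : ℝ) < a := by
    rw [haR]
    nlinarith
  have hk1 : (0 : ℝ) < (k : ℝ) - 1 := by linarith
  have hγβ : 1 / (β : ℝ) ≤ γ := by
    have h1 : 1 / γ ≤ β := hβ0.le.trans (by exact_mod_cast hββ)
    rw [div_le_iff₀ (by linarith)]
    rw [div_le_iff₀ hγ] at h1
    linarith
  have hdiff : (β : ℝ) / a - 1 / ((k : ℝ) - 1) ≤ 1 / β := by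
    rw [div_sub_div _ _ ha0.ne' hk1.ne', div_le_div_iff₀ (by positivity) (by linarith)]
    have h2 : (β : ℝ) * ((k : ℝ) - 1) - a * 1 = 1 := by
      rw [haR]
      ring
    rw [h2, haR]
    nlinarith [mul_nonneg (by linarith : (0 : ℝ) ≤ (β : ℝ)) (by linarith : (0 : ℝ) ≤ (k : ℝ) - 3),
      mul_nonneg (mul_nonneg (by linarith : (0 : ℝ) ≤ (β : ℝ)) (by linarith : (0 : ℝ) ≤ (k : ℝ) - 3))
        (by linarith : (0 : ℝ) ≤ (k : ℝ) - 3)]
  have hkk : (k : ℝ) / ((k : ℝ) - 1) = 1 + 1 / ((k : ℝ) - 1) := by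
    field_simp
    ring
  rw [hkk]
  have h3 : (β : ℝ) / a ≤ 1 / ((k : ℝ) - 1) + γ := by linarith
  have h4 : E₁ * ((β : ℝ) / a) ≤ E₁ * (1 / ((k : ℝ) - 1)) + γ := by
    calc E₁ * ((β : ℝ) / a) ≤ E₁ * (1 / ((k : ℝ) - 1) + γ) := mul_le_mul_of_nonneg_left h3 hE0.le
      _ = E₁ * (1 / ((k : ℝ) - 1)) + E₁ * γ := by ring
      _ ≤ E₁ * (1 / ((k : ℝ) - 1)) + 1 * γ := by
          have := mul_le_mul_of_nonneg_right hE1 hγ.le
          linarith
      _ = _ := by ring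
  linarith

theorem main (k : ℕ) (hk : 3 ≤ k) (μ E : ℝ) (hμ0 : 0 ≤ μ) (hμk : μ < k)
    (hE : E < (1 - 1 / (k : ℝ)) * (1 - μ / k)) :
    ∃ n₀ : ℕ, ∀ n ≥ n₀, ∀ s r t : ℕ, ((t : ℝ) + 1) * 2 ^ r ≤ (n : ℝ) ^ μ →
      ∀ (C : Circuit (Clause n k) s r t) (out : Fin s),
        ((∀ F, C.fn out F ↔ Satisfiable F) ∨ (∀ F, C.fn out F ↔ ¬ Satisfiable F)) →
        (2 : ℝ) ^ ((n : ℝ) ^ E) < s := by
  have hk3 : (3 : ℝ) ≤ k := by exact_mod_cast hk
  have hk0 : (0 : ℝ) < k := by linarith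
  have hk1 : (0 : ℝ) < (k : ℝ) - 1 := by linarith
  set B : ℝ := (1 - 1 / (k : ℝ)) * (1 - μ / k) with hB
  have h1k : 0 < 1 - 1 / (k : ℝ) := by
    have : 1 / (k : ℝ) < 1 := by
      rw [div_lt_one hk0]
      linarith
    linarith
  have h1k' : 1 - 1 / (k : ℝ) ≤ 1 := by
    have : 0 ≤ 1 / (k : ℝ) := by positivity
    linarith
  have hμk1 : μ / k < 1 := by
    rw [div_lt_one hk0]
    exact hμk
  have hμk0 : 0 ≤ μ / k := by positivity
  have hB0 : 0 < B := mul_pos h1k (by linarith)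
  have hB1 : B ≤ 1 := by
    rw [hB]
    exact mul_le_one₀ h1k' (by linarith) (by linarith)
  -- exponents
  set E₂ : ℝ := max E (B / 2) with hE₂
  have hE₂0 : 0 < E₂ := lt_of_lt_of_le (by positivity) (le_max_right _ _)
  have hEE₂ : E ≤ E₂ := le_max_left _ _
  have hE₂B : E₂ < B := max_lt hE (by linarith)
  set E₁ : ℝ := (E₂ + B) / 2 with hE₁
  have hE₁0 : 0 < E₁ := by
    rw [hE₁]
    positivity
  have hE₂₁ : E₂ < E₁ := by
    rw [hE₁]
    linarith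
  have hE₁B : E₁ < B := by
    rw [hE₁]
    linarith
  have hE₁1 : E₁ ≤ 1 := hE₁B.le.trans hB1
  have hgap : E₁ * (k / ((k : ℝ) - 1)) < 1 - μ / k := by
    have h1 : B * (k / ((k : ℝ) - 1)) = 1 - μ / k := by
      rw [hB]
      field_simp
    have h2 : E₁ * (k / ((k : ℝ) - 1)) < B * (k / ((k : ℝ) - 1)) :=
      mul_lt_mul_of_pos_right hE₁B (by positivity)
    rwa [h1] at h2
  set γ : ℝ := ((1 - μ / k) - E₁ * (k / ((k : ℝ) - 1))) / 3 with hγ
  have hγ0 : 0 < γ := by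
    rw [hγ]
    linarith
  set τ : ℝ := μ / k + γ with hτ
  have hτ0 : 0 ≤ τ := by
    rw [hτ]
    linarith
  obtain ⟨β, a, hβ3, ha, hβa⟩ := exists_beta k hk hE₁0 hE₁1 hγ0
  have hτE : τ + E₁ * (1 + (β : ℝ) / a) < 1 := by
    have h3 : 3 * γ = (1 - μ / k) - E₁ * (k / ((k : ℝ) - 1)) := by
      rw [hγ]
      ring
    rw [hτ]
    linarith
  obtain ⟨n1, hn1⟩ := few_params k β a hk hβ3 ha E₁ τ hE₁0 hτ0 hτE
  obtain ⟨n2, hn2⟩ := H13.asymP 2 (E₁ - E₂) 0 (by linarith)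
  obtain ⟨n3, hn3⟩ := H13.asymP k E₂ 1 hE₂0
  obtain ⟨n4, hn4⟩ := H13.asymP (12 * k + 7) (k * γ) 1 (by positivity)
  refine ⟨max (max n1 n2) (max (max n3 n4) 2), fun n hn s r t hr C out hC => ?_⟩
  have hn1' := hn1 n ((le_max_left _ _).trans ((le_max_left _ _).trans hn))
  have hn2' := hn2 n ((le_max_right _ _).trans ((le_max_left _ _).trans hn))
  have hn3' := hn3 n ((le_max_left _ _).trans ((le_max_left _ _).trans
    ((le_max_right _ _).trans hn)))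
  have hn4' := hn4 n ((le_max_right _ _).trans ((le_max_left _ _).trans
    ((le_max_right _ _).trans hn)))
  have hn5 : 2 ≤ n := (le_max_right _ _).trans ((le_max_right _ _).trans hn)
  obtain ⟨c', V, D, M, g, ρ, p, hc2, hcE, hp1, hpτ, hpn, hV, hD, hN, hH, hρ1, hρ, hg, hR, hG, hM,
    hvars⟩ := hn1'
  have hn2R : (2 : ℝ) ≤ n := by exact_mod_cast hn5
  have hn0 : (0 : ℝ) < n := by linarith
  have hnn1 : (1 : ℝ) ≤ n := by linarith
  have hlog : 0 ≤ Real.log n := Real.log_nonneg hnn1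
  rw [pow_zero, mul_one] at hn2'
  rw [pow_one] at hn3' hn4'
  by_contra hcon
  push Not at hcon
  -- the error
  set z : ℝ := (n : ℝ) ^ E with hz
  set y : ℝ := (n : ℝ) ^ E₁ with hy
  have hzy : z + k * Real.log n ≤ y := by
    have h1 : z ≤ (n : ℝ) ^ E₂ := Real.rpow_le_rpow_of_exponent_le hnn1 hEE₂
    have h2 : y = (n : ℝ) ^ (E₁ - E₂) * (n : ℝ) ^ E₂ := by
      rw [hy, ← Real.rpow_add hn0]
      congr 1
      ring
    have h3 : 2 * (n : ℝ) ^ E₂ ≤ y := by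
      rw [h2]
      exact mul_le_mul_of_nonneg_right hn2' (by positivity)
    have h4 : (k : ℝ) * Real.log n ≤ k * (Real.log n + 3) :=
      mul_le_mul_of_nonneg_left (by linarith) hk0.le
    linarith
  have hs2 : ((s : ℝ) * s) ≤ 4 ^ z := by
    have h1 : (4 : ℝ) ^ z = 2 ^ z * 2 ^ z := by
      rw [← Real.mul_rpow (by norm_num) (by norm_num)]
      norm_num
    rw [h1]
    exact mul_le_mul hcon hcon (by positivity) (by positivity)
  have hc' : (1 / 4 : ℝ) ^ c' ≤ (4 : ℝ) ^ (-(y + 1)) := by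
    have h1 : (1 / 4 : ℝ) ^ c' = (4 : ℝ) ^ (-(c' : ℝ)) := by
      rw [Real.rpow_neg (by norm_num), Real.rpow_natCast, one_div, inv_pow]
    rw [h1]
    refine Real.rpow_le_rpow_of_exponent_le (by norm_num) ?_
    have h2 : ((c' - 1 : ℕ) : ℝ) = (c' : ℝ) - 1 := by
      rw [Nat.cast_sub (by omega)]
      norm_num
    rw [h2] at hcE
    linarith
  have hz1 : (1 : ℝ) ≤ 4 ^ z := by
    have : 0 ≤ z := by
      rw [hz]
      positivity
    exact Real.one_le_rpow (by norm_num) this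
  have hnk : ((p ^ k : ℕ) : ℝ) ≤ (4 : ℝ) ^ (y - z) := by
    have h1 : ((p ^ k : ℕ) : ℝ) ≤ (n : ℝ) ^ k := by
      push_cast
      exact pow_le_pow_left₀ (by positivity) (by exact_mod_cast hpn) k
    refine h1.trans ?_
    have h2 : (n : ℝ) ^ k = Real.exp (k * Real.log n) := by
      rw [← Real.log_pow, Real.exp_log (by positivity)]
    rw [h2, Real.rpow_def_of_pos (by norm_num)]
    refine Real.exp_le_exp.2 ?_
    have h3 : (1 : ℝ) ≤ Real.log 4 := by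
      have h4 : Real.log 4 = 2 * Real.log 2 := by
        have : (4 : ℝ) = 2 ^ 2 := by norm_num
        rw [this, Real.log_pow]
        norm_num
      have := Real.log_two_gt_d9
      rw [h4]
      linarith
    have h5 : 0 ≤ y - z := by
      have : 0 ≤ (k : ℝ) * Real.log n := by positivity
      linarith
    calc (k : ℝ) * Real.log n ≤ 1 * (y - z) := by linarith
      _ ≤ Real.log 4 * (y - z) := mul_le_mul_of_nonneg_right h3 h5
  have he : ((p ^ k : ℕ) : ℝ) * (2 * (s * s + 1) * (1 / 4) ^ c') ≤ 1 := by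
    calc ((p ^ k : ℕ) : ℝ) * (2 * (s * s + 1) * (1 / 4) ^ c')
        ≤ (4 : ℝ) ^ (y - z) * (2 * (4 ^ z + 4 ^ z) * (4 : ℝ) ^ (-(y + 1))) := by
          refine mul_le_mul hnk ?_ (by positivity) (by positivity)
          refine mul_le_mul ?_ hc' (by positivity) (by positivity)
          linarith
      _ = 4 * ((4 : ℝ) ^ (y - z) * 4 ^ z * (4 : ℝ) ^ (-(y + 1))) := by ring
      _ = 1 := by
          rw [← Real.rpow_add (by norm_num), ← Real.rpow_add (by norm_num)]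
          have : y - z + z + -(y + 1) = -1 := by ring
          rw [this, Real.rpow_neg_one]
          norm_num
  -- the family
  obtain ⟨T, Mt, hTc, hMt, hsep⟩ := C.exists_monotone_family out
  have hf : ∀ x y, (∀ t ∈ T, Mt t x ↔ Mt t y) → (Satisfiable x ↔ Satisfiable y) := by
    intro x y hxy
    have h1 := hsep x y hxy
    rcases hC with hC | hC
    · rw [hC, hC] at h1
      exact h1
    · rw [hC, hC] at h1
      exact not_iff_not.1 h1
  have hfin := few_explicit hk hβ3 ha hc2 hV hD hN hH hρ1 hρ hg hR hG hM hvars he T Mt hMt hf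
  -- comparison
  have hr2 : (r : ℝ) ≤ 2 * k * Real.log n := by
    have ht0 : (0 : ℝ) ≤ t := by positivity
    have e1 : (2 : ℝ) ^ r ≤ (n : ℝ) ^ (k : ℝ) := by
      calc (2 : ℝ) ^ r ≤ ((t : ℝ) + 1) * 2 ^ r :=
            le_mul_of_one_le_left (by positivity) (by linarith)
        _ ≤ (n : ℝ) ^ μ := hr
        _ ≤ (n : ℝ) ^ (k : ℝ) := Real.rpow_le_rpow_of_exponent_le hnn1 hμk.le
    have e2 := Real.log_le_log (by positivity) e1
    rw [Real.log_pow, Real.log_rpow hn0] at e2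
    have e3 : (1 / 2 : ℝ) ≤ Real.log 2 := by
      have := Real.log_two_gt_d9
      linarith
    have e4 : (r : ℝ) * (1 / 2) ≤ r * Real.log 2 := mul_le_mul_of_nonneg_left e3 (by positivity)
    linarith
  have hTR : (T.card : ℝ) ≤ (n : ℝ) ^ μ * (2 * k * Real.log n + 1) := by
    have e1 : (T.card : ℝ) ≤ 2 ^ r * (r * t + 1) := by exact_mod_cast hTc
    have e2 : (r : ℝ) * t + 1 ≤ (t + 1) * (r + 1) := by
      have h1 : (0 : ℝ) ≤ r := by positivity
      have h2 : (0 : ℝ) ≤ t := by positivity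
      linarith
    calc (T.card : ℝ) ≤ 2 ^ r * (r * t + 1) := e1
      _ ≤ 2 ^ r * ((t + 1) * (r + 1)) := mul_le_mul_of_nonneg_left e2 (by positivity)
      _ = (((t : ℝ) + 1) * 2 ^ r) * (r + 1) := by ring
      _ ≤ (n : ℝ) ^ μ * (2 * k * Real.log n + 1) := by
          refine mul_le_mul hr (by linarith) (by positivity) (by positivity)
  have hlow : (n : ℝ) ^ μ * (n : ℝ) ^ (k * γ) ≤ ((p ^ k : ℕ) : ℝ) := by
    have h1 : (n : ℝ) ^ μ * (n : ℝ) ^ (k * γ) = ((n : ℝ) ^ τ) ^ k := by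
      rw [← Real.rpow_add hn0, ← Real.rpow_natCast ((n : ℝ) ^ τ), ← Real.rpow_mul hn0.le]
      congr 1
      rw [hτ]
      field_simp
    rw [h1]
    push_cast
    exact pow_le_pow_left₀ (by positivity) hpτ k
  have hfinR : ((p ^ k : ℕ) : ℝ) ≤ 6 * T.card := by exact_mod_cast hfin
  have hμ1 : (1 : ℝ) ≤ (n : ℝ) ^ μ := Real.one_le_rpow hnn1 hμ0
  have hlast : (n : ℝ) ^ μ * (n : ℝ) ^ (k * γ) ≤
      (n : ℝ) ^ μ * (6 * (2 * k * Real.log n + 1)) := by
    calc (n : ℝ) ^ μ * (n : ℝ) ^ (k * γ) ≤ 6 * T.card := hlow.trans hfinR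
      _ ≤ 6 * ((n : ℝ) ^ μ * (2 * k * Real.log n + 1)) := by linarith
      _ = _ := by ring
  have hlast' : (n : ℝ) ^ (k * γ) ≤ 6 * (2 * k * Real.log n + 1) :=
    le_of_mul_le_mul_left hlast (by linarith)
  have h8 : (12 * (k : ℝ) + 7) * (Real.log n + 3) = 12 * k * Real.log n + 7 * Real.log n +
      3 * (12 * k + 7) := by ring
  have h9 : 0 ≤ (k : ℝ) * Real.log n := by positivity
  linarith

end Pool.Agent.H25.NS
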