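import Pool.Agent.H13.MonoCircuit
import Pool.Agent.H25.NS.Circuit

/-!
Monotone programs on sets, and their approximation.
-/

namespace Pool.Agent.H25.NS

set_option linter.unusedSectionVars false

open Finset
open H13 (Atom Good St AppData cnt)

/-- Gate number `i` of a sequence is a constant or an element test, or the disjunction or the
conjunction of a set of earlier members. -/
def AGate {Z : Type} (f : ℕ → Finset Z → Prop) (i : ℕ) : Prop :=
  Atom (f i) ∨
  (∃ S : Finset ℕ, (∀ j ∈ S, j < i) ∧ ∀ y, f i y ↔ ∃ j ∈ S, f j y) ∨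
  (∃ S : Finset ℕ, (∀ j ∈ S, j < i) ∧ ∀ y, f i y ↔ ∀ j ∈ S, f j y)

/-- `h` is computed by a monotone program with `s` gates. -/
def ASize {Z : Type} (s : ℕ) (h : Finset Z → Prop) : Prop :=
  ∃ f : ℕ → Finset Z → Prop, (∀ i < s, AGate f i) ∧ ∃ i < s, ∀ y, h y ↔ f i y

variable {X Y Z : Type}

theorem AGate.mono {f : ℕ → Finset Z → Prop} {s : ℕ} (h : ∀ i < s, AGate f i)
    {x y : Finset Z} (hxy : x ⊆ y) : ∀ i < s, f i x → f i y := by
  intro i
  induction i using Nat.strong_induction_on with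
  | _ i ih =>
    intro hi hx
    rcases h i hi with (h1 | h1 | ⟨z, h1⟩) | ⟨S, hS, h1⟩ | ⟨S, hS, h1⟩
    · exact absurd hx (h1 x)
    · exact h1 y
    · rw [h1] at hx ⊢
      exact hxy hx
    · rw [h1] at hx ⊢
      obtain ⟨j, hj, hx⟩ := hx
      exact ⟨j, hj, ih j (hS j hj) ((hS j hj).trans hi) hx⟩
    · rw [h1] at hx ⊢
      intro j hj
      exact ih j (hS j hj) ((hS j hj).trans hi) (hx j hj)

theorem ASize.mono {s : ℕ} {h : Finset Z → Prop} (hs : ASize s h) {x y : Finset Z}
    (hxy : x ⊆ y) (hx : h x) : h y := by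
  obtain ⟨f, hf, i, hi, hF⟩ := hs
  rw [hF] at hx ⊢
  exact AGate.mono hf hxy i hi hx

/-- The complement of a monotone function of an antitone encoding. -/
theorem MonoSize.compl {s : ℕ} {M : Finset Y → Prop} (h : MonoSize s M)
    (g : Finset Z → Finset Y) (hg : ∀ c, Atom fun y => c ∉ g y) :
    ASize s fun y => ¬ M (g y) := by
  obtain ⟨f, hf, i, hi, hF⟩ := h
  refine ⟨fun i y => ¬ f i (g y), ?_, i, hi, fun y => not_congr (hF _)⟩
  intro i hi
  rcases hf i hi with ⟨c, h1⟩ | ⟨S, hS, h1⟩ | ⟨S, hS, h1⟩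
  · left
    have h2 : (fun y => ¬ f i (g y)) = fun y => c ∉ g y := by
      funext y
      rw [h1]
    show Atom fun y => ¬ f i (g y)
    rw [h2]
    exact hg c
  · right; left
    refine ⟨S, hS, fun y => ?_⟩
    show ¬ f i (g y) ↔ ∃ j ∈ S, ¬ f j (g y)
    rw [h1]
    push Not
    rfl
  · right; right
    refine ⟨S, hS, fun y => ?_⟩
    show ¬ f i (g y) ↔ ∀ j ∈ S, ¬ f j (g y)
    rw [h1]
    push Not
    rfl

/-- Restriction to a block. -/
theorem ASize.restrict [DecidableEq Z] {s : ℕ} {h : Finset Z → Prop} (hs : ASize s h)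
    (φ : X ↪ Z) (G : Finset Z) : ASize s fun y : Finset X => h (G ∪ y.map φ) := by
  classical
  obtain ⟨f, hf, i, hi, hF⟩ := hs
  refine ⟨fun i y => f i (G ∪ y.map φ), ?_, i, hi, fun y => hF _⟩
  intro i hi
  rcases hf i hi with (h1 | h1 | ⟨z, h1⟩) | ⟨S, hS, h1⟩ | ⟨S, hS, h1⟩
  · exact Or.inl (Or.inl fun y => h1 _)
  · exact Or.inl (Or.inr (Or.inl fun y => h1 _))
  · left
    by_cases hz : z ∈ G
    · refine Or.inr (Or.inl fun y => ?_)
      show f i (G ∪ y.map φ)
      rw [h1]
      exact Finset.mem_union_left _ hz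
    · by_cases hx : ∃ x, φ x = z
      · obtain ⟨x, rfl⟩ := hx
        refine Or.inr (Or.inr ⟨x, fun y => ?_⟩)
        show f i (G ∪ y.map φ) ↔ _
        rw [h1, Finset.mem_union, Finset.mem_map]
        constructor
        · rintro (h' | ⟨a, ha, hax⟩)
          · exact absurd h' hz
          · rwa [← φ.injective hax]
        · intro h'
          exact Or.inr ⟨x, h', rfl⟩
      · refine Or.inl fun y => ?_
        show ¬ f i (G ∪ y.map φ)
        rw [h1, Finset.mem_union, Finset.mem_map]
        rintro (h' | ⟨a, ha, hax⟩)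
        · exact hz h'
        · exact hx ⟨a, hax⟩
  · exact Or.inr (Or.inl ⟨S, hS, fun y => h1 _⟩)
  · exact Or.inr (Or.inr ⟨S, hS, fun y => h1 _⟩)

section

variable {Ω A : Type} [Fintype X] [DecidableEq X] [Fintype Ω] [Fintype A]

theorem good_atom {N : Ω → Finset X} {Y : A → Finset X} {c' : ℕ} (hc : 1 ≤ c')
    {BP : A → Prop} {BN : Ω → Prop} {h : Finset X → Prop} (hat : Atom h) :
    Good N Y c' BP BN h := by
  classical
  have h1 := H13.good_lits_or (N := N) (Y := Y) hc (BP := BP) (BN := BN) ({()} : Finset Unit)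
    (fun _ y => h y) (fun _ _ => hat)
  exact h1.congr fun y => by simp

theorem good_agate {N : Ω → Finset X} {Y : A → Finset X} {c' : ℕ} {R δ : ℝ}
    (hD : AppData N Y c' R δ) {f : ℕ → Finset X → Prop} {s i : ℕ} (hi : i < s)
    (hf : AGate f i) {BP : A → Prop} {BN : Ω → Prop} {u : ℕ} (hst : St Ω A c' BP BN u)
    (hprev : ∀ j < i, Good N Y c' BP BN (f j)) :
    ∃ BP' BN', St Ω A c' BP' BN' (u + s) ∧ (∀ α, BP α → BP' α) ∧
      (∀ w, BN w → BN' w) ∧ Good N Y c' BP' BN' (f i) := by
  classical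
  have hcard : ∀ S : Finset ℕ, (∀ j ∈ S, j < i) → S.card ≤ s := by
    intro S hS
    have h1 : S ⊆ Finset.range i := fun j hj => Finset.mem_range.2 (hS j hj)
    have h2 := Finset.card_le_card h1
    rw [Finset.card_range] at h2
    omega
  rcases hf with hf | ⟨S, hS, hf⟩ | ⟨S, hS, hf⟩
  · exact ⟨BP, BN, hst.le (by omega), fun _ h => h, fun _ h => h, good_atom hD.hc hf⟩
  · have key : ∀ P : Finset ℕ, P ⊆ S →
        ∃ BP' BN', St Ω A c' BP' BN' (u + P.card) ∧ (∀ α, BP α → BP' α) ∧
        (∀ w, BN w → BN' w) ∧ Good N Y c' BP' BN' (fun y => ∃ j ∈ P, f j y) := by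
      intro P
      induction P using Finset.induction_on with
      | empty =>
        intro _
        refine ⟨BP, BN, hst.le (by omega), fun _ h => h, fun _ h => h, good_atom hD.hc ?_⟩
        left
        rintro y ⟨j, hj, _⟩
        exact absurd hj (Finset.notMem_empty j)
      | insert p P hp ih =>
        intro hsub
        obtain ⟨BP1, BN1, hst1, hP1, hN1, hg1⟩ := ih ((Finset.subset_insert _ _).trans hsub)
        have hg2 := (hprev p (hS p (hsub (Finset.mem_insert_self _ _)))).mono hP1 hN1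
        obtain ⟨BP2, BN2, hst2, hP2, hN2, hg⟩ := H13.good_or hD hst1 hg1 hg2
        refine ⟨BP2, BN2, ?_, fun α h => hP2 α (hP1 α h), fun w h => hN2 w (hN1 w h), ?_⟩
        · rw [Finset.card_insert_of_notMem hp]
          exact hst2.le (by omega)
        · refine hg.congr (fun y => ?_)
          simp only [Finset.mem_insert, exists_eq_or_imp]
          exact or_comm
    obtain ⟨BP', BN', hst', hP', hN', hg⟩ := key S (Finset.Subset.refl _)
    have := hcard S hS
    exact ⟨BP', BN', hst'.le (by omega), hP', hN', hg.congr fun y => (hf y).symm⟩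
  · have key : ∀ P : Finset ℕ, P ⊆ S →
        ∃ BP' BN', St Ω A c' BP' BN' (u + P.card) ∧ (∀ α, BP α → BP' α) ∧
        (∀ w, BN w → BN' w) ∧ Good N Y c' BP' BN' (fun y => ∀ j ∈ P, f j y) := by
      intro P
      induction P using Finset.induction_on with
      | empty =>
        intro _
        refine ⟨BP, BN, hst.le (by omega), fun _ h => h, fun _ h => h, good_atom hD.hc ?_⟩
        right; left
        intro y j hj
        exact absurd hj (Finset.notMem_empty j)
      | insert p P hp ih =>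
        intro hsub
        obtain ⟨BP1, BN1, hst1, hP1, hN1, hg1⟩ := ih ((Finset.subset_insert _ _).trans hsub)
        have hg2 := (hprev p (hS p (hsub (Finset.mem_insert_self _ _)))).mono hP1 hN1
        obtain ⟨BP2, BN2, hst2, hP2, hN2, hg⟩ := H13.good_and hD hst1 hg1 hg2
        refine ⟨BP2, BN2, ?_, fun α h => hP2 α (hP1 α h), fun w h => hN2 w (hN1 w h), ?_⟩
        · rw [Finset.card_insert_of_notMem hp]
          exact hst2.le (by omega)
        · refine hg.congr (fun y => ?_)
          simp only [Finset.mem_insert, forall_eq_or_imp]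
          exact and_comm
    obtain ⟨BP', BN', hst', hP', hN', hg⟩ := key S (Finset.Subset.refl _)
    have := hcard S hS
    exact ⟨BP', BN', hst'.le (by omega), hP', hN', hg.congr fun y => (hf y).symm⟩

theorem good_prog {N : Ω → Finset X} {Y : A → Finset X} {c' : ℕ} {R δ : ℝ}
    (hD : AppData N Y c' R δ) {f : ℕ → Finset X → Prop} {s : ℕ} (hf : ∀ i < s, AGate f i) :
    ∀ n ≤ s, ∃ BP BN, St Ω A c' BP BN (n * s) ∧ ∀ i < n, Good N Y c' BP BN (f i) := by
  intro n
  induction n with
  | zero =>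
    intro _
    refine ⟨fun _ => False, fun _ => False, ⟨?_, ?_⟩, fun i hi => absurd hi (Nat.not_lt_zero _)⟩
    · rw [H13.cnt_eq_zero (fun _ h => h)]
      simp
    · rw [H13.cnt_eq_zero (fun _ h => h)]
      simp
  | succ n ih =>
    intro hn
    obtain ⟨BP, BN, hst, hg⟩ := ih (by omega)
    obtain ⟨BP', BN', hst', hP, hN, hgn⟩ := good_agate hD (s := s) (i := n) (by omega)
      (hf n (by omega)) hst hg
    refine ⟨BP', BN', ?_, ?_⟩
    · have : (n + 1) * s = n * s + s := by ring
      rw [this]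
      exact hst'
    · intro i hi
      rcases Nat.lt_succ_iff_lt_or_eq.1 hi with hi | rfl
      · exact (hg i hi).mono hP hN
      · exact hgn

end

end Pool.Agent.H25.NS
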